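import Mathlib

/-!
# Regular relations

* `konig`: a `K`-regular bipartite relation splits into `K` permutations;
* `exists_pm`: a Dirac type condition for perfect matchings;
* `exists_circ`: `K`-regular graphs on `n > K` vertices, `K` even.
-/

set_option autoImplicit false

namespace Pool.Agent.Lib.MP_632be6_co

open Finset Classical

/-- Decomposition of a `K`-regular bipartite relation. -/
theorem konig {T : Type*} [Fintype T] : ∀ (K : ℕ) (Q : T → T → Prop),
    (∀ u, (univ.filter (fun v => Q u v)).card = K) →
    (∀ v, (univ.filter (fun u => Q u v)).card = K) →
    ∃ κ : T → T → ℕ, (∀ u v, Q u v → κ u v < K) ∧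
      (∀ u v v', Q u v → Q u v' → κ u v = κ u v' → v = v') ∧
      (∀ u u' v, Q u v → Q u' v → κ u v = κ u' v → u = u') := by
  intro K
  induction K with
  | zero =>
    intro Q h1 _
    have : ∀ u v, ¬ Q u v := by
      intro u v h
      have := h1 u
      rw [Finset.card_eq_zero] at this
      have h2 : v ∈ univ.filter (fun v => Q u v) := by simp [h]
      rw [this] at h2
      simp at h2
    exact ⟨fun _ _ => 0, fun u v h => absurd h (this u v), fun u v _ h => absurd h (this u v),
      fun u _ v h => absurd h (this u v)⟩
  | succ K ih =>
    intro Q h1 h2
    have hall : ∃ f : T → T, Function.Injective f ∧ ∀ x, f x ∈ univ.filter (fun v => Q x v) := by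
      rw [← Finset.all_card_le_biUnion_card_iff_exists_injective]
      intro s
      have e1 : ∑ u ∈ s, (univ.filter (fun v => Q u v)).card = s.card * (K + 1) := by
        rw [Finset.sum_congr rfl (fun u _ => h1 u), Finset.sum_const, smul_eq_mul]
      have e2 : ∑ u ∈ s, (univ.filter (fun v => Q u v)).card ≤
          ∑ v ∈ s.biUnion (fun u => univ.filter (fun v => Q u v)),
            (univ.filter (fun u => Q u v)).card := by
        calc ∑ u ∈ s, (univ.filter (fun v => Q u v)).card
            = ∑ u ∈ s, ∑ v ∈ s.biUnion (fun u => univ.filter (fun v => Q u v)),
                if Q u v then 1 else 0 := by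
              apply Finset.sum_congr rfl
              intro u hu
              rw [Finset.card_filter]
              symm
              apply Finset.sum_subset (Finset.subset_univ _)
              intro v _ hv
              rw [if_neg]
              intro hq
              exact hv (Finset.mem_biUnion.mpr ⟨u, hu, by simp [hq]⟩)
          _ = ∑ v ∈ s.biUnion (fun u => univ.filter (fun v => Q u v)), ∑ u ∈ s,
                if Q u v then 1 else 0 := Finset.sum_comm
          _ ≤ _ := by
              apply Finset.sum_le_sum
              intro v _
              rw [Finset.card_filter]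
              exact Finset.sum_le_sum_of_subset (Finset.subset_univ _)
      rw [e1, Finset.sum_congr rfl (fun v _ => h2 v), Finset.sum_const, smul_eq_mul] at e2
      exact Nat.le_of_mul_le_mul_right e2 (Nat.succ_pos K)
    obtain ⟨f, hf1, hf2⟩ := hall
    have hfQ : ∀ u, Q u (f u) := fun u => (Finset.mem_filter.mp (hf2 u)).2
    have hfs : Function.Surjective f := Finite.surjective_of_injective hf1
    obtain ⟨κ, k1, k2, k3⟩ := ih (fun u v => Q u v ∧ v ≠ f u)
      (by
        intro u
        have : univ.filter (fun v => Q u v ∧ v ≠ f u) =
            (univ.filter (fun v => Q u v)).erase (f u) := by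
          ext v; simp [and_comm]
        have h3 := congrArg Finset.card this
        rw [Finset.card_erase_of_mem (hf2 u), h1 u, Nat.add_sub_cancel] at h3
        convert h3)
      (by
        intro v
        obtain ⟨w, rfl⟩ := hfs v
        have : univ.filter (fun u => Q u (f w) ∧ f w ≠ f u) =
            (univ.filter (fun u => Q u (f w))).erase w := by
          ext u
          simp only [Finset.mem_filter, Finset.mem_univ, true_and, Finset.mem_erase]
          constructor
          · rintro ⟨a, b⟩
            exact ⟨fun h => b (by rw [h]), a⟩
          · rintro ⟨a, b⟩
            exact ⟨b, fun h => a (hf1 h).symm⟩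
        have h3 := congrArg Finset.card this
        rw [Finset.card_erase_of_mem (by simp [hfQ w]), h2 (f w), Nat.add_sub_cancel] at h3
        convert h3)
    refine ⟨fun u v => if v = f u then K else κ u v, ?_, ?_, ?_⟩
    · intro u v h
      by_cases hv : v = f u
      · simp [hv]
      · have := k1 u v ⟨h, hv⟩
        simp only [hv, if_false]
        omega
    · intro u v v' h h' he
      by_cases hv : v = f u <;> by_cases hv' : v' = f u
      · rw [hv, hv']
      · have := k1 u v' ⟨h', hv'⟩
        simp only [hv, hv', if_true, if_false] at he
        omega
      · have := k1 u v ⟨h, hv⟩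
        simp only [hv, hv', if_true, if_false] at he
        omega
      · simp only [hv, hv', if_false] at he
        exact k2 u v v' ⟨h, hv⟩ ⟨h', hv'⟩ he
    · intro u u' v h h' he
      dsimp only at he
      by_cases hv : v = f u <;> by_cases hv' : v = f u'
      · exact hf1 (hv.symm.trans hv')
      · have := k1 u' v ⟨h', hv'⟩
        rw [if_pos hv, if_neg hv'] at he
        omega
      · have := k1 u v ⟨h, hv⟩
        rw [if_neg hv, if_pos hv'] at he
        omega
      · rw [if_neg hv, if_neg hv'] at he
        exact k3 u u' v ⟨h, hv⟩ ⟨h', hv'⟩ he

/-- A graph on an even number of vertices all of whose degrees are at least half the number of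
vertices has a perfect matching. -/
theorem exists_pm {T : Type*} [Fintype T] (B : T → T → Prop) (hsym : ∀ u v, B u v → B v u)
    (hirr : ∀ u, ¬ B u u) (heven : Even (Fintype.card T))
    (hdeg : ∀ u, Fintype.card T ≤ 2 * (univ.filter (fun v => B u v)).card) :
    ∃ p : T → T, (∀ u, p (p u) = u) ∧ ∀ u, B u (p u) := by
  obtain ⟨p, hp, hmin⟩ := Finset.exists_min_image
    (univ.filter (fun p : T → T => ∀ u, p (p u) = u ∧ (p u = u ∨ B u (p u))))
    (fun p => (univ.filter (fun u => p u = u)).card) ⟨id, by simp⟩
  simp only [Finset.mem_filter, Finset.mem_univ, true_and] at hp hmin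
  have hinv : ∀ u, p (p u) = u := fun u => (hp u).1
  refine ⟨p, hinv, ?_⟩
  by_contra hcon
  push Not at hcon
  obtain ⟨a, ha⟩ := hcon
  have hafix : p a = a := (hp a).2.resolve_right ha
  -- parity
  have hpar : Even (univ.filter (fun u => p u = u)).card := by
    let σ : Equiv.Perm T := ⟨p, p, hinv, hinv⟩
    have h1 : 2 ∣ σ.support.card := Equiv.Perm.two_dvd_card_support (by
      ext u
      simp only [pow_two, Equiv.Perm.mul_apply, Equiv.Perm.one_apply]
      exact hinv u)
    have h2 : (univ.filter (fun u => p u = u)).card + σ.support.card = Fintype.card T := by
      rw [← Finset.card_univ, ← Finset.card_filter_add_card_filter_not (s := univ) (fun u => p u = u)]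
      congr 1
    have h3 : Even σ.support.card := even_iff_two_dvd.mpr h1
    have h4 : Even ((univ.filter (fun u => p u = u)).card + σ.support.card) := by
      rw [h2]; exact heven
    exact (Nat.even_add.mp h4).mpr h3
  have hb : ∃ b, b ≠ a ∧ p b = b := by
    by_contra hnb
    push Not at hnb
    have : univ.filter (fun u => p u = u) = {a} := by
      ext u
      simp only [Finset.mem_filter, Finset.mem_univ, true_and, Finset.mem_singleton]
      constructor
      · intro h
        by_contra hne
        exact hnb u hne h
      · rintro rfl
        exact hafix
    rw [this, Finset.card_singleton] at hpar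
    exact absurd hpar (by decide)
  obtain ⟨b, hba, hbfix⟩ := hb
  -- no edges between fixed points
  have nofix : ∀ a v, p a = a → p v = v → ¬ B a v := by
    intro a v hafix hv hB
    have hav : a ≠ v := by rintro rfl; exact hirr a hB
    have h1 := hmin (fun u => if u = a then v else if u = v then a else p u) (by
      intro u
      by_cases h1 : u = a
      · subst h1; simp [hav.symm, hB]
      · by_cases h2 : u = v
        · subst h2; simp [h1, hsym _ _ hB]
        · have h3 : p u ≠ a := by
            intro h; apply h1; rw [← hinv u, h, hafix]
          have h4 : p u ≠ v := by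
            intro h; apply h2; rw [← hinv u, h, hv]
          simp only [h1, h2, h3, h4, if_false]
          exact hp u)
    have h2 : (univ.filter (fun u => (if u = a then v else if u = v then a else p u) = u)).card <
        (univ.filter (fun u => p u = u)).card := by
      apply Finset.card_lt_card
      rw [Finset.ssubset_iff_of_subset]
      · refine ⟨a, by simp [hafix], by simp [hav.symm]⟩
      · intro u
        simp only [Finset.mem_filter, Finset.mem_univ, true_and]
        intro h
        by_cases h1 : u = a
        · subst h1; exact hafix
        · by_cases h2 : u = v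
          · subst h2; exact hv
          · simpa [h1, h2] using h
    exact absurd h1 (by simpa using h2)
  have hAnf : ∀ v, B a v → p v ≠ v := fun v hv h => nofix a v hafix h hv
  have hBnf : ∀ v, B b v → p v ≠ v := fun v hv h => nofix b v hbfix h hv
  -- no augmenting path
  have noaug : ∀ v, B a v → ¬ B b (p v) := by
    intro v hav hbv
    have hv := hAnf v hav
    have hva : v ≠ a := by rintro rfl; exact hirr _ hav
    have hvb : v ≠ b := by rintro rfl; exact hv hbfix
    have hpva : p v ≠ a := by
      intro h; apply hva; rw [← hinv v, h, hafix]
    have hpvb : p v ≠ b := by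
      intro h; apply hvb; rw [← hinv v, h, hbfix]
    have h1 := hmin (fun u => if u = a then v else if u = v then a else if u = b then p v
      else if u = p v then b else p u) (by
      intro u
      by_cases h1 : u = a
      · subst h1; simp [hva, hav]
      · by_cases h2 : u = v
        · subst h2; simp [h1, hsym _ _ hav]
        · by_cases h3 : u = b
          · subst h3
            simp [h1, h2, hpva, hv, hpvb, hbv]
          · by_cases h4 : u = p v
            · subst h4
              simp [h1, h2, h3, hba, hvb.symm, hsym _ _ hbv]
            · have h5 : p u ≠ a := by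
                intro h; apply h1; rw [← hinv u, h, hafix]
              have h6 : p u ≠ v := by
                intro h; apply h4; rw [← h, hinv u]
              have h7 : p u ≠ b := by
                intro h; apply h3; rw [← hinv u, h, hbfix]
              have h8 : p u ≠ p v := by
                intro h; apply h2; rw [← hinv u, h, hinv v]
              simp only [h1, h2, h3, h4, h5, h6, h7, h8, if_false]
              exact hp u)
    have h2 : (univ.filter (fun u => (if u = a then v else if u = v then a else if u = b then p v
      else if u = p v then b else p u) = u)).card < (univ.filter (fun u => p u = u)).card := by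
      apply Finset.card_lt_card
      rw [Finset.ssubset_iff_of_subset]
      · refine ⟨a, by simp [hafix], by simp [hva]⟩
      · intro u
        simp only [Finset.mem_filter, Finset.mem_univ, true_and]
        intro h
        by_cases g1 : u = a
        · subst g1; exact hafix
        · by_cases g2 : u = v
          · subst g2
            simp only [g1, if_true, if_false] at h
            exact absurd h.symm g1
          · by_cases g3 : u = b
            · subst g3; exact hbfix
            · by_cases g4 : u = p v
              · subst g4
                simp only [g1, g2, g3, if_true, if_false] at h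
                exact absurd h.symm g3
              · simpa [g1, g2, g3, g4] using h
    exact absurd h1 (by simpa using h2)
  -- counting
  set NA := univ.filter (fun v => B a v) with hNA
  set NB := univ.filter (fun v => B b v) with hNB
  have hdisj : Disjoint (NA.image p) NB := by
    rw [Finset.disjoint_left]
    intro w hw hw'
    obtain ⟨v, hv, rfl⟩ := Finset.mem_image.mp hw
    exact noaug v (Finset.mem_filter.mp hv).2 (Finset.mem_filter.mp hw').2
  have hpinj : Function.Injective p := by
    intro u v h
    rw [← hinv u, h, hinv v]
  have hsub : NA.image p ∪ NB ⊆ (univ.erase a).erase b := by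
    intro w hw
    rw [Finset.mem_union] at hw
    have hnf : p w ≠ w := by
      rcases hw with hw | hw
      · obtain ⟨v, hv, rfl⟩ := Finset.mem_image.mp hw
        have := hAnf v (Finset.mem_filter.mp hv).2
        rw [hinv]; exact this.symm
      · exact hBnf w (Finset.mem_filter.mp hw).2
    simp only [Finset.mem_erase, Finset.mem_univ, and_true]
    exact ⟨by rintro rfl; exact hnf hbfix, by rintro rfl; exact hnf hafix⟩
  have hcard := Finset.card_le_card hsub
  rw [Finset.card_union_of_disjoint hdisj, Finset.card_image_of_injective _ hpinj,
    Finset.card_erase_of_mem (by simp [hba]), Finset.card_erase_of_mem (Finset.mem_univ _),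
    Finset.card_univ] at hcard
  have h1 : Fintype.card T ≤ 2 * NA.card := hdeg a
  have h2 : Fintype.card T ≤ 2 * NB.card := hdeg b
  have h3 : 0 < Fintype.card T := Fintype.card_pos_iff.mpr ⟨a⟩
  have h4 : 1 < Fintype.card T := Fintype.one_lt_card_iff.mpr ⟨b, a, hba⟩
  omega

/-- Circulant graphs. -/
theorem exists_circ (n k : ℕ) (hn : 2 * k < n) : ∃ R : Fin n → Fin n → Prop,
    (∀ u v, R u v → R v u) ∧ (∀ u, ¬ R u u) ∧
    ∀ u, (univ.filter (fun v => R u v)).card = 2 * k := by
  have : NeZero n := ⟨by omega⟩
  refine ⟨fun u v => (1 ≤ (v - u).val ∧ (v - u).val ≤ k) ∨ n - k ≤ (v - u).val, ?_, ?_, ?_⟩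
  · intro u v h
    have h1 : u - v = -(v - u) := (neg_sub v u).symm
    by_cases h0 : v - u = 0
    · rw [h0] at h
      simp at h
      omega
    · have hpos : 0 < (v - u).val := by
        rw [Nat.pos_iff_ne_zero]
        intro h2
        exact h0 (Fin.ext h2)
      have h2 : (-(v - u)).val = n - (v - u).val := by
        rw [Fin.val_neg]
        simp [h0]
      have h3 : (v - u).val < n := (v - u).isLt
      rw [h1, h2]
      rcases h with h | h
      · right; omega
      · by_cases h4 : k = 0
        · omega
        · left; omega
  · intro u
    simp only [sub_self, Fin.val_zero]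
    omega
  · intro u
    have e : (univ.filter (fun v : Fin n => (1 ≤ (v - u).val ∧ (v - u).val ≤ k) ∨
        n - k ≤ (v - u).val)).card = (univ.filter (fun d : Fin n => (1 ≤ d.val ∧ d.val ≤ k) ∨
        n - k ≤ d.val)).card := by
      apply Finset.card_bij (fun v _ => v - u)
      · intro v hv
        simpa using hv
      · intro v _ v' _ h
        exact sub_left_injective h
      · intro d hd
        refine ⟨d + u, ?_, add_sub_cancel_right d u⟩
        simpa using hd
    have goal : (univ.filter (fun v : Fin n => (1 ≤ (v - u).val ∧ (v - u).val ≤ k) ∨
        n - k ≤ (v - u).val)).card = 2 * k := ?_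
    · convert goal
    rw [e]
    have e2 : (univ.filter (fun d : Fin n => (1 ≤ d.val ∧ d.val ≤ k) ∨ n - k ≤ d.val)).card =
        (Finset.Icc 1 k ∪ Finset.Ico (n - k) n).card := by
      apply Finset.card_bij (fun d _ => d.val)
      · intro d hd
        simp only [Finset.mem_filter, Finset.mem_univ, true_and] at hd
        simp only [Finset.mem_union, Finset.mem_Icc, Finset.mem_Ico]
        have := d.isLt
        omega
      · intro d _ d' _ h
        exact Fin.ext h
      · intro d hd
        simp only [Finset.mem_union, Finset.mem_Icc, Finset.mem_Ico] at hd
        refine ⟨⟨d, by omega⟩, ?_, rfl⟩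
        simp only [Finset.mem_filter, Finset.mem_univ, true_and]
        omega
    rw [e2, Finset.card_union_of_disjoint]
    · simp; omega
    · rw [Finset.disjoint_left]
      intro d hd hd'
      simp only [Finset.mem_Icc, Finset.mem_Ico] at hd hd'
      omega

end Pool.Agent.Lib.MP_632be6_co
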