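import Pool.Agent.Lib.MP_632be6_co.Level
import Pool.Agent.Lib.MP_632be6_co.Reg

/-!
# From a coloured multigraph on `W` to a colouring of the product
-/

set_option autoImplicit false

namespace Pool.Agent.Lib.MP_632be6_co

open Finset Classical

/-- Uniform choice of injections between finite sets of small cardinality. -/
lemma exists_label (q : ℕ) : ∃ F : Finset ℕ → Finset (Fin q) → ℕ → ℕ,
    ∀ (S : Finset ℕ) (T : Finset (Fin q)), S.card ≤ T.card →
      (∀ l ∈ S, ∃ c ∈ T, F S T l = c.val) ∧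
      (∀ l ∈ S, ∀ l' ∈ S, F S T l = F S T l' → l = l') := by
  have key : ∀ (S : Finset ℕ) (T : Finset (Fin q)), ∃ f : ℕ → ℕ, S.card ≤ T.card →
      (∀ l ∈ S, ∃ c ∈ T, f l = c.val) ∧ (∀ l ∈ S, ∀ l' ∈ S, f l = f l' → l = l') := by
    intro S T
    by_cases h : S.card ≤ T.card
    · have : Nonempty (S ↪ T) := by
        apply Function.Embedding.nonempty_of_card_le
        simpa using h
      obtain ⟨e⟩ := this
      refine ⟨fun l => if hl : l ∈ S then (e ⟨l, hl⟩).1.val else 0, fun _ => ⟨?_, ?_⟩⟩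
      · intro l hl
        exact ⟨(e ⟨l, hl⟩).1, (e ⟨l, hl⟩).2, by simp [hl]⟩
      · intro l hl l' hl' he
        simp only [hl, hl', dif_pos] at he
        have h1 : e ⟨l, hl⟩ = e ⟨l', hl'⟩ := Subtype.ext (Fin.ext he)
        have h2 := e.injective h1
        exact congrArg Subtype.val h2
    · exact ⟨fun _ => 0, fun h' => absurd h' h⟩
  choose F hF using key
  exact ⟨F, hF⟩

/-- Valid labels on a pair: `0` for the fibre edge, `j + 1` for the `j`-th matching. -/
noncomputable def valid {W : Type*} (A : W → W → Prop) (s Q : W → W → Prop) (D : ℕ) (u v : W) :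
    Finset ℕ :=
  (if A u v then {0} else ∅) ∪ (if s u v then (Finset.Icc 1 D) \ (if Q u v then {1} else ∅) else ∅)

lemma valid_card {W : Type*} (A : W → W → Prop) (s Q : W → W → Prop) (D : ℕ) (hD : 1 ≤ D)
    (u v : W) : (valid A s Q D u v).card =
      (if A u v then 1 else 0) + (if s u v then D - (if Q u v then 1 else 0) else 0) := by
  unfold valid
  rw [Finset.card_union_of_disjoint]
  · congr 1
    · split_ifs <;> simp
    · split_ifs
      · rw [Finset.card_sdiff_of_subset (by simp [hD])]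
        simp
      · simp
      · simp
  · rw [Finset.disjoint_left]
    intro a ha hb
    split_ifs at ha hb <;> simp_all

lemma mem_valid_zero {W : Type*} (A : W → W → Prop) (s Q : W → W → Prop) (D : ℕ) (u v : W)
    (h : A u v) : 0 ∈ valid A s Q D u v := by
  unfold valid
  simp [h]

lemma mem_valid_succ {W : Type*} (A : W → W → Prop) (s Q : W → W → Prop) (D : ℕ) (u v : W)
    (j : ℕ) (hj : j < D) (hs : s u v) (hQ : ¬ (j = 0 ∧ Q u v)) : j + 1 ∈ valid A s Q D u v := by
  unfold valid
  rw [Finset.mem_union]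
  right
  rw [if_pos hs, Finset.mem_sdiff]
  refine ⟨by simp; omega, ?_⟩
  split_ifs with h
  · simp only [Finset.mem_singleton]
    intro h'
    exact hQ ⟨by omega, h⟩
  · simp

/-- Adjacency in the product. -/
def PAdj {X W : Type*} (G : SimpleGraph X) (A : SimpleGraph W) (s : W → W → Prop)
    (p r : X × W) : Prop :=
  (p.1 = r.1 ∧ A.Adj p.2 r.2) ∨ (G.Adj p.1 r.1 ∧ s p.2 r.2)

theorem assemble {X W : Type*} [Fintype X] [Fintype W] (G : SimpleGraph X) (D : ℕ) (hD : 1 ≤ D)
    (g : X → X → ℕ) (g_symm : ∀ x y, g x y = g y x) (g_lt : ∀ x y, G.Adj x y → g x y < D)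
    (g_inj : ∀ x y y', G.Adj x y → G.Adj x y' → g x y = g x y' → y = y')
    (A : SimpleGraph W) (s Q : W → W → Prop) (s_symm : ∀ u v, s u v → s v u)
    (s_refl : ∀ u, s u u)
    (U : W → Prop) (hUA : ∀ u v, U u → A.Adj u v → U v) (hUs : ∀ u v, U u → s u v → U v)
    (Q_symm : ∀ u v, Q u v → Q v u) (Q_irr : ∀ u, ¬ Q u u)
    (K : ℕ) (κ : W → W → ℕ) (κ_lt : ∀ u v, U u → Q u v → κ u v < K)
    (κ_row : ∀ u v v', U u → Q u v → Q u v' → κ u v = κ u v' → v = v')
    (κ_col : ∀ u u' v, U v → Q u v → Q u' v → κ u v = κ u' v → u = u')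
    (q : ℕ) (m : Fam W (Fin q))
    (hm : ∀ u v, U u → u ≠ v → mult m u v =
      (if A.Adj u v then 1 else 0) + (if s u v then D - (if Q u v then 1 else 0) else 0))
    (hmiss : ∀ u, U u → D ≤ (missing m u).card) :
    ∃ c : X × W → X × W → ℕ,
      (∀ p r, U p.2 → PAdj G A s p r → c p r < q + K) ∧
      (∀ p r, PAdj G A s p r → c p r = c r p) ∧
      (∀ p r r', U p.2 → PAdj G A s p r → PAdj G A s p r' → c p r = c p r' → r = r') := by
  obtain ⟨F, hF⟩ := exists_label q
  set e := Fintype.equivFin X with he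
  set Col : W → W → Finset (Fin q) := fun u v => univ.filter (fun c => m.f c u = v) with hCol
  have Col_symm : ∀ u v, Col u v = Col v u := by
    intro u v
    ext c
    simp only [hCol, Finset.mem_filter, Finset.mem_univ, true_and]
    constructor
    · intro h; rw [← h, m.inv]
    · intro h; rw [← h, m.inv]
  set L : W → W → Finset ℕ := fun u v => valid A.Adj s Q D u v with hL
  have L_symm : ∀ u v, L u v = L v u := by
    intro u v
    simp only [hL, valid]
    have h1 : A.Adj u v ↔ A.Adj v u := A.adj_comm u v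
    have h2 : s u v ↔ s v u := ⟨s_symm u v, s_symm v u⟩
    have h3 : Q u v ↔ Q v u := ⟨Q_symm u v, Q_symm v u⟩
    simp only [h1, h2, h3]
  have hcard : ∀ u v, U u → (L u v).card ≤ (Col u v).card := by
    intro u v hu
    simp only [hL]
    rw [valid_card _ _ _ _ hD]
    by_cases huv : u = v
    · subst huv
      simp only [SimpleGraph.irrefl, if_false, s_refl, if_true, Q_irr, Nat.sub_zero, zero_add]
      exact hmiss u hu
    · rw [← hm u v hu huv]
      simp only [hCol, Finset.card_filter, mult]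
      exact le_refl _
  have hFcol : ∀ u v, U u → ∀ l ∈ L u v, ∃ c : Fin q, m.f c u = v ∧ F (L u v) (Col u v) l = c.val := by
    intro u v hu l hl
    obtain ⟨c, hc, hc'⟩ := (hF (L u v) (Col u v) (hcard u v hu)).1 l hl
    exact ⟨c, (Finset.mem_filter.mp hc).2, hc'⟩
  have hFinj : ∀ u v, U u → ∀ l ∈ L u v, ∀ l' ∈ L u v,
      F (L u v) (Col u v) l = F (L u v) (Col u v) l' → l = l' := by
    intro u v hu
    exact (hF (L u v) (Col u v) (hcard u v hu)).2
  -- combined: same value at same u
  have hFboth : ∀ u v v', U u → ∀ l ∈ L u v, ∀ l' ∈ L u v',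
      F (L u v) (Col u v) l = F (L u v') (Col u v') l' → v = v' ∧ l = l' := by
    intro u v v' hu l hl l' hl' h
    obtain ⟨c, hc1, hc2⟩ := hFcol u v hu l hl
    obtain ⟨c', hc1', hc2'⟩ := hFcol u v' hu l' hl'
    have hcc : c = c' := Fin.ext (by rw [← hc2, ← hc2', h])
    have hv : v = v' := by rw [← hc1, ← hc1', hcc]
    subst hv
    exact ⟨rfl, hFinj u v hu l hl l' hl' h⟩
  have hFlt : ∀ u v, U u → ∀ l ∈ L u v, F (L u v) (Col u v) l < q := by
    intro u v hu l hl
    obtain ⟨c, _, hc⟩ := hFcol u v hu l hl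
    rw [hc]; exact c.isLt
  refine ⟨fun p r => if p.1 = r.1 then F (L p.2 r.2) (Col p.2 r.2) 0 else
    if g p.1 r.1 = 0 ∧ Q p.2 r.2 then q + (if e p.1 < e r.1 then κ p.2 r.2 else κ r.2 p.2)
    else F (L p.2 r.2) (Col p.2 r.2) (g p.1 r.1 + 1), ?_, ?_, ?_⟩
  · rintro ⟨x, u⟩ ⟨y, v⟩ hu hadj
    simp only [PAdj] at hadj hu ⊢
    rcases hadj with ⟨hxy, huv⟩ | ⟨hxy, huv⟩
    · rw [if_pos hxy]
      have := hFlt u v hu 0 (mem_valid_zero _ _ _ _ _ _ huv)
      omega
    · rw [if_neg hxy.ne]
      by_cases h : g x y = 0 ∧ Q u v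
      · rw [if_pos h]
        have hv : U v := hUs u v hu huv
        split_ifs
        · have := κ_lt u v hu h.2; omega
        · have := κ_lt v u hv (Q_symm u v h.2); omega
      · rw [if_neg h]
        have := hFlt u v hu (g x y + 1) (mem_valid_succ _ _ _ _ _ _ _ (g_lt x y hxy) huv h)
        omega
  · rintro ⟨x, u⟩ ⟨y, v⟩ hadj
    simp only [PAdj] at hadj ⊢
    rw [L_symm v u, Col_symm v u, g_symm y x]
    rcases hadj with ⟨hxy, huv⟩ | ⟨hxy, huv⟩
    · rw [if_pos hxy, if_pos hxy.symm]
    · rw [if_neg hxy.ne, if_neg hxy.ne']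
      have h3 : Q u v ↔ Q v u := ⟨Q_symm u v, Q_symm v u⟩
      by_cases h : g x y = 0 ∧ Q u v
      · rw [if_pos h, if_pos (show g x y = 0 ∧ Q v u by rw [← h3]; exact h)]
        rcases lt_or_gt_of_ne (fun h' => hxy.ne (e.injective h') : e x ≠ e y) with h4 | h4
        · rw [if_pos h4, if_neg (not_lt.mpr h4.le)]
        · rw [if_neg (not_lt.mpr h4.le), if_pos h4]
      · rw [if_neg h, if_neg (show ¬ (g x y = 0 ∧ Q v u) by rw [← h3]; exact h)]
  · rintro ⟨x, u⟩ ⟨y, v⟩ ⟨y', v'⟩ hu hadj hadj' hc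
    simp only [PAdj] at hadj hadj' hu hc
    rcases hadj with ⟨hxy, huv⟩ | ⟨hxy, huv⟩
    · rw [if_pos hxy] at hc
      have hl := mem_valid_zero A.Adj s Q D u v huv
      rcases hadj' with ⟨hxy', huv'⟩ | ⟨hxy', huv'⟩
      · rw [if_pos hxy'] at hc
        have hl' := mem_valid_zero A.Adj s Q D u v' huv'
        obtain ⟨h1, _⟩ := hFboth u v v' hu 0 hl 0 hl' hc
        rw [← hxy, ← hxy', h1]
      · rw [if_neg hxy'.ne] at hc
        by_cases h : g x y' = 0 ∧ Q u v'
        · rw [if_pos h] at hc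
          have := hFlt u v hu 0 hl
          omega
        · rw [if_neg h] at hc
          have hl' := mem_valid_succ A.Adj s Q D u v' _ (g_lt x y' hxy') huv' h
          obtain ⟨_, h2⟩ := hFboth u v v' hu 0 hl _ hl' hc
          omega
    · rw [if_neg hxy.ne] at hc
      by_cases h : g x y = 0 ∧ Q u v
      · rw [if_pos h] at hc
        rcases hadj' with ⟨hxy', huv'⟩ | ⟨hxy', huv'⟩
        · rw [if_pos hxy'] at hc
          have hl' := mem_valid_zero A.Adj s Q D u v' huv'
          have := hFlt u v' hu 0 hl'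
          omega
        · rw [if_neg hxy'.ne] at hc
          by_cases h' : g x y' = 0 ∧ Q u v'
          · rw [if_pos h'] at hc
            have hyy : y = y' := g_inj x y y' hxy hxy' (by rw [h.1, h'.1])
            subst hyy
            by_cases hlt : e x < e y
            · rw [if_pos hlt, if_pos hlt] at hc
              rw [κ_row u v v' hu h.2 h'.2 (by omega)]
            · rw [if_neg hlt, if_neg hlt] at hc
              rw [κ_col v v' u hu (Q_symm _ _ h.2) (Q_symm _ _ h'.2) (by omega)]
          · rw [if_neg h'] at hc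
            have hl' := mem_valid_succ A.Adj s Q D u v' _ (g_lt x y' hxy') huv' h'
            have := hFlt u v' hu _ hl'
            omega
      · rw [if_neg h] at hc
        have hl := mem_valid_succ A.Adj s Q D u v _ (g_lt x y hxy) huv h
        rcases hadj' with ⟨hxy', huv'⟩ | ⟨hxy', huv'⟩
        · rw [if_pos hxy'] at hc
          have hl' := mem_valid_zero A.Adj s Q D u v' huv'
          obtain ⟨_, h2⟩ := hFboth u v v' hu _ hl 0 hl' hc
          omega
        · rw [if_neg hxy'.ne] at hc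
          by_cases h' : g x y' = 0 ∧ Q u v'
          · rw [if_pos h'] at hc
            have := hFlt u v hu _ hl
            omega
          · rw [if_neg h'] at hc
            have hl' := mem_valid_succ A.Adj s Q D u v' _ (g_lt x y' hxy') huv' h'
            obtain ⟨h1, h2⟩ := hFboth u v v' hu _ hl _ hl' hc
            have hyy : y = y' := g_inj x y y' hxy hxy' (by omega)
            rw [h1, hyy]

end Pool.Agent.Lib.MP_632be6_co
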