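import Pool.Agent.Lib.MP_632be6_co.Assemble

/-!
# Choice of the regular graphs and of the root class, and the colouring of one component
-/

set_option autoImplicit false

namespace Pool.Agent.Lib.MP_632be6_co

open Finset Classical

variable {W : Type*} [Fintype W]

/-- Transport of circulant graphs to a finite set. -/
lemma rel_exists (T : Finset W) (K : ℕ) (hK : Even K) (hlt : K < T.card) :
    ∃ R : W → W → Prop, (∀ u v, R u v → R v u) ∧ (∀ u, ¬ R u u) ∧
      ∀ u ∈ T, (T.filter (fun v => R u v)).card = K := by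
  obtain ⟨k, hk⟩ := hK
  obtain ⟨R0, h1, h2, h3⟩ := exists_circ T.card k (by omega)
  set e := T.equivFin with he
  refine ⟨fun u v => ∃ (hu : u ∈ T) (hv : v ∈ T), R0 (e ⟨u, hu⟩) (e ⟨v, hv⟩), ?_, ?_, ?_⟩
  · rintro u v ⟨hu, hv, h⟩
    exact ⟨hv, hu, h1 _ _ h⟩
  · rintro u ⟨hu, hv, h⟩
    exact h2 _ h
  · intro u hu
    have : (T.filter (fun v => ∃ (hu : u ∈ T) (hv : v ∈ T), R0 (e ⟨u, hu⟩) (e ⟨v, hv⟩))).card =
        (univ.filter (fun d => R0 (e ⟨u, hu⟩) d)).card := by
      apply Finset.card_bij (fun v hv => e ⟨v, (Finset.mem_filter.mp hv).1⟩)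
      · intro v hv
        obtain ⟨hvT, hu', hv', h⟩ := Finset.mem_filter.mp hv
        simp only [Finset.mem_filter, Finset.mem_univ, true_and]
        exact h
      · intro v hv v' hv' h
        have := e.injective h
        exact congrArg Subtype.val this
      · intro d hd
        refine ⟨(e.symm d).1, ?_, ?_⟩
        · rw [Finset.mem_filter]
          refine ⟨(e.symm d).2, hu, (e.symm d).2, ?_⟩
          simpa using hd
        · simp
    have h4 : (T.filter (fun v => ∃ (hu : u ∈ T) (hv : v ∈ T), R0 (e ⟨u, hu⟩) (e ⟨v, hv⟩))).card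
        = K := by
      rw [this, h3]
      omega
    convert h4

/-- Transport of perfect matchings to a finite set. -/
lemma pm_exists (T : Finset W) (B : W → W → Prop) (hsym : ∀ u v, B u v → B v u)
    (hirr : ∀ u, ¬ B u u) (heven : Even T.card)
    (hdeg : ∀ u ∈ T, T.card ≤ 2 * (T.filter (fun v => B u v)).card) :
    ∃ p : W → W, ∀ u ∈ T, p u ∈ T ∧ p (p u) = u ∧ B u (p u) := by
  obtain ⟨p, hp1, hp2⟩ := exists_pm (T := T) (fun u v => B u.1 v.1) (fun u v h => hsym _ _ h)
    (fun u => hirr _) (by simpa using heven) (by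
      intro u
      have h1 := hdeg u.1 u.2
      have h2 : (univ.filter (fun v : T => B u.1 v.1)).card = (T.filter (fun v => B u.1 v)).card := by
        apply Finset.card_bij (fun v _ => v.1)
        · intro v hv
          simp only [Finset.mem_filter, Finset.mem_univ, true_and] at hv
          exact Finset.mem_filter.mpr ⟨v.2, hv⟩
        · intro v _ v' _ h
          exact Subtype.ext h
        · intro v hv
          obtain ⟨hv1, hv2⟩ := Finset.mem_filter.mp hv
          exact ⟨⟨v, hv1⟩, by simp [hv2], rfl⟩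
      rw [Fintype.card_coe, h2]
      exact h1)
  refine ⟨fun u => if h : u ∈ T then (p ⟨u, h⟩).1 else u, ?_⟩
  intro u hu
  simp only [hu, dif_pos, (p ⟨u, hu⟩).2]
  refine ⟨trivial, ?_, hp2 ⟨u, hu⟩⟩
  have := hp1 ⟨u, hu⟩
  exact congrArg Subtype.val this

/-- Handshake: a relation of odd regular degree lives on an even number of points. -/
lemma even_of_odd_reg (T : Finset W) (B : W → W → Prop) (hsym : ∀ u v, B u v → B v u)
    (hirr : ∀ u, ¬ B u u) (r : ℕ) (hr : Odd r)
    (hdeg : ∀ u ∈ T, (T.filter (fun v => B u v)).card = r) : Even T.card := by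
  let G : SimpleGraph T :=
    { Adj := fun u v => B u.1 v.1
      symm := ⟨fun u v h => hsym _ _ h⟩
      loopless := ⟨fun u h => hirr _ h⟩ }
  have h1 := G.even_card_odd_degree_vertices
  have h2 : (univ.filter (fun v => Odd (G.degree v))) = univ := by
    ext v
    simp only [Finset.mem_filter, Finset.mem_univ, true_and, iff_true]
    have h3 : G.degree v = r := by
      rw [← hdeg v.1 v.2, ← SimpleGraph.card_neighborFinset_eq_degree]
      apply Finset.card_bij (fun w _ => w.1)
      · intro w hw
        rw [SimpleGraph.mem_neighborFinset] at hw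
        exact Finset.mem_filter.mpr ⟨w.2, hw⟩
      · intro w _ w' _ h
        exact Subtype.ext h
      · intro w hw
        obtain ⟨hw1, hw2⟩ := Finset.mem_filter.mp hw
        exact ⟨⟨w, hw1⟩, by rw [SimpleGraph.mem_neighborFinset]; exact hw2, rfl⟩
    rw [h3]; exact hr
  rw [h2, Finset.card_univ, Fintype.card_coe] at h1
  exact h1

/-- The class of `v`. -/
noncomputable def cls (s : W → W → Prop) (v : W) : Finset W := univ.filter (fun y => s v y)

lemma mem_cls {s : W → W → Prop} {v y : W} : y ∈ cls s v ↔ s v y := by simp [cls]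

lemma cls_eq {s : W → W → Prop} (hs : Equivalence s) {u v : W} (h : s u v) :
    cls s u = cls s v := by
  ext y
  rw [mem_cls, mem_cls]
  exact ⟨fun h' => hs.trans (hs.symm h) h', fun h' => hs.trans h h'⟩

/-- Inner degree. -/
noncomputable def rdeg (A : SimpleGraph W) (s : W → W → Prop) (v : W) : ℕ :=
  ((cls s v).filter (fun y => A.Adj v y)).card

lemma rdeg_lt (A : SimpleGraph W) {s : W → W → Prop} (hs : Equivalence s) (v : W) :
    rdeg A s v < (cls s v).card := by
  apply Finset.card_lt_card
  rw [Finset.ssubset_iff_of_subset (Finset.filter_subset _ _)]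
  exact ⟨v, mem_cls.mpr (hs.refl v), by simp⟩

/-- Adjacency in the complement. -/
def coadj (A : SimpleGraph W) (u v : W) : Prop := u ≠ v ∧ ¬ A.Adj u v

/-- Choice of `K`, of the root class and of the regular graph on the root class. -/
theorem root_exists (A : SimpleGraph W) (s : W → W → Prop) (hs : Equivalence s)
    (hr : ∀ u v, s u v → rdeg A s u = rdeg A s v) (U : W → Prop) (w0 : W) (hw0 : U w0) :
    ∃ (K : ℕ) (ω : W) (R : W → W → Prop), U ω ∧ Even K ∧ (∀ v, U v → K < (cls s v).card) ∧
      (∀ u v, R u v → R v u) ∧ (∀ u, ¬ R u u) ∧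
      (∀ u ∈ cls s ω, ((cls s ω).filter (fun v => R u v)).card = K) ∧
      (∀ x ∈ cls s ω, ∃ ys, ∀ y ∈ cls s ω, A.Adj x y → ¬ R x y → y = ys) := by
  obtain ⟨v0, hv0, hmin⟩ := Finset.exists_min_image (univ.filter U) (fun v => rdeg A s v)
    ⟨w0, by simp [hw0]⟩
  simp only [Finset.mem_filter, Finset.mem_univ, true_and] at hv0 hmin
  have hdeg : ∀ ω, ∀ u ∈ cls s ω, ((cls s ω).filter (fun v => A.Adj u v)).card = rdeg A s ω := by
    intro ω u hu
    rw [hr ω u (mem_cls.mp hu), rdeg, cls_eq hs (mem_cls.mp hu)]
  set r0 := rdeg A s v0 with hr0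
  rcases Nat.even_or_odd r0 with he | ho
  · refine ⟨r0, v0, A.Adj, hv0, he, ?_, fun u v h => h.symm, fun u => A.irrefl, hdeg v0, ?_⟩
    · intro v hv
      exact lt_of_le_of_lt (hmin v hv) (rdeg_lt A hs v)
    · intro x _
      exact ⟨x, fun y _ h1 h2 => absurd h1 h2⟩
  · have hpos : 1 ≤ r0 := ho.pos
    by_cases hc : ∃ ω, U ω ∧ rdeg A s ω = r0 ∧ (cls s ω).card ≤ 2 * r0
    · obtain ⟨ω, hω, hωr, hωn⟩ := hc
      have hev : Even (cls s ω).card := even_of_odd_reg (cls s ω) A.Adj (fun u v h => h.symm)
        (fun u => A.irrefl) r0 ho (fun u hu => by rw [hdeg ω u hu, hωr])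
      obtain ⟨p, hp⟩ := pm_exists (cls s ω) A.Adj (fun u v h => h.symm)
        (fun u => A.irrefl) hev (fun u hu => by rw [hdeg ω u hu, hωr]; exact hωn)
      refine ⟨r0 - 1, ω, fun u v => u ∈ cls s ω ∧ v ∈ cls s ω ∧ A.Adj u v ∧ v ≠ p u, hω,
        Nat.Odd.sub_odd ho odd_one, ?_, ?_, ?_, ?_, ?_⟩
      · intro v hv
        have h1 := hmin v hv
        have h2 := rdeg_lt A hs v
        omega
      · rintro u v ⟨hu, hv, hadj, hne⟩
        refine ⟨hv, hu, hadj.symm, ?_⟩
        rintro rfl
        exact hne ((hp v hv).2.1).symm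
      · rintro u ⟨_, _, h, _⟩
        exact A.irrefl h
      · intro u hu
        have h1 : (cls s ω).filter (fun v => u ∈ cls s ω ∧ v ∈ cls s ω ∧ A.Adj u v ∧ v ≠ p u) =
            ((cls s ω).filter (fun v => A.Adj u v)).erase (p u) := by
          ext v
          simp only [Finset.mem_filter, Finset.mem_erase]
          constructor
          · rintro ⟨_, _, h3, h4, h5⟩
            exact ⟨h5, h3, h4⟩
          · rintro ⟨h5, h3, h4⟩
            exact ⟨h3, hu, h3, h4, h5⟩
        have h2 := congrArg Finset.card h1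
        rw [Finset.card_erase_of_mem (Finset.mem_filter.mpr ⟨(hp u hu).1, (hp u hu).2.2⟩),
          hdeg ω u hu, hωr] at h2
        convert h2
      · intro x hx
        refine ⟨p x, fun y hy hadj hnR => ?_⟩
        by_contra hne
        exact hnR ⟨hx, hy, hadj, hne⟩
    · push Not at hc
      have hev : Even (cls s v0).card := even_of_odd_reg (cls s v0) A.Adj (fun u v h => h.symm)
        (fun u => A.irrefl) r0 ho (fun u hu => hdeg v0 u hu)
      have hgt := hc v0 hv0 rfl
      have hge : 2 * r0 + 2 ≤ (cls s v0).card := by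
        obtain ⟨t, ht⟩ := hev
        omega
      have hcomp : ∀ u ∈ cls s v0,
          ((cls s v0).filter (fun v => coadj A u v)).card + r0 + 1 = (cls s v0).card := by
        intro u hu
        have h1 : (cls s v0).filter (fun v => coadj A u v) =
            ((cls s v0).filter (fun v => ¬ A.Adj u v)).erase u := by
          ext v
          simp only [Finset.mem_filter, Finset.mem_erase, coadj]
          constructor
          · rintro ⟨h3, h4, h5⟩
            exact ⟨h4.symm, h3, h5⟩
          · rintro ⟨h4, h3, h5⟩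
            exact ⟨h3, h4.symm, h5⟩
        have h2 := congrArg Finset.card h1
        have hmem : u ∈ (cls s v0).filter (fun v => ¬ A.Adj u v) :=
          Finset.mem_filter.mpr ⟨hu, A.irrefl⟩
        rw [Finset.card_erase_of_mem hmem] at h2
        have h3 := Finset.card_filter_add_card_filter_not (s := cls s v0) (fun v => A.Adj u v)
        rw [hdeg v0 u hu] at h3
        have h4 : 0 < ((cls s v0).filter (fun v => ¬ A.Adj u v)).card := Finset.card_pos.mpr ⟨u, hmem⟩
        omega
      obtain ⟨p, hp⟩ := pm_exists (cls s v0) (coadj A)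
        (fun u v h => ⟨h.1.symm, fun h' => h.2 h'.symm⟩) (fun u h => h.1 rfl) hev (fun u hu => by
          have := hcomp u hu
          omega)
      refine ⟨r0 + 1, v0, fun u v => u ∈ cls s v0 ∧ v ∈ cls s v0 ∧ (A.Adj u v ∨ v = p u), hv0,
        ho.add_odd odd_one, ?_, ?_, ?_, ?_, ?_⟩
      · intro v hv
        have h1 := hmin v hv
        have h2 := rdeg_lt A hs v
        by_cases h3 : rdeg A s v = r0
        · have := hc v hv h3
          omega
        · omega
      · rintro u v ⟨hu, hv, h⟩
        refine ⟨hv, hu, ?_⟩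
        rcases h with h | h
        · exact Or.inl h.symm
        · right
          rw [h, (hp u hu).2.1]
      · rintro u ⟨hu, _, h⟩
        rcases h with h | h
        · exact A.irrefl h
        · exact (hp u hu).2.2.1 h
      · intro u hu
        have h1 : (cls s v0).filter (fun v => u ∈ cls s v0 ∧ v ∈ cls s v0 ∧
            (A.Adj u v ∨ v = p u)) = insert (p u) ((cls s v0).filter (fun v => A.Adj u v)) := by
          ext v
          simp only [Finset.mem_filter, Finset.mem_insert]
          constructor
          · rintro ⟨_, _, h3, h4⟩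
            rcases h4 with h4 | h4
            · exact Or.inr ⟨h3, h4⟩
            · exact Or.inl h4
          · rintro (h4 | ⟨h3, h4⟩)
            · have : v ∈ cls s v0 := by rw [h4]; exact (hp u hu).1
              exact ⟨this, hu, this, Or.inr h4⟩
            · exact ⟨h3, hu, h3, Or.inl h4⟩
        have h2 := congrArg Finset.card h1
        rw [Finset.card_insert_of_notMem (fun h => (hp u hu).2.2.2 (Finset.mem_filter.mp h).2),
          hdeg v0 u hu] at h2
        convert h2
      · intro x hx
        refine ⟨x, fun y hy hadj hnR => ?_⟩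
        exact absurd ⟨hx, hy, Or.inl hadj⟩ hnR

/-- `lev k v`: there is a walk of length `k` from the root class to `v`. -/
def lev (A : SimpleGraph W) (s : W → W → Prop) (ω : W) : ℕ → W → Prop
  | 0, v => s ω v
  | k + 1, v => ∃ u, lev A s ω k u ∧ A.Adj u v

omit [Fintype W] in
lemma lev_cls (A : SimpleGraph W) (s : W → W → Prop) (hs : Equivalence s)
    (hP : ∀ u v v', s v v' → A.Adj u v → ∃ u', s u u' ∧ A.Adj u' v') (ω : W) :
    ∀ k v v', s v v' → lev A s ω k v → lev A s ω k v' := by
  intro k
  induction k with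
  | zero =>
    intro v v' h hv
    exact hs.trans hv h
  | succ k ih =>
    rintro v v' h ⟨u, hu, hadj⟩
    obtain ⟨u', h1, h2⟩ := hP u v v' h hadj
    exact ⟨u', ih u u' h1 hu, h2⟩

/-- The level of a vertex. -/
noncomputable def level (A : SimpleGraph W) (s : W → W → Prop) (ω : W) (v : W) : ℕ :=
  sInf {k | lev A s ω k v}

/-- One component. -/
theorem component {X : Type*} [Fintype X] (G : SimpleGraph X) (D : ℕ) (hD : 1 ≤ D)
    (g : X → X → ℕ) (g_symm : ∀ x y, g x y = g y x) (g_lt : ∀ x y, G.Adj x y → g x y < D)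
    (g_inj : ∀ x y y', G.Adj x y → G.Adj x y' → g x y = g x y' → y = y')
    (A : SimpleGraph W) (s : W → W → Prop) (hs : Equivalence s)
    (hP : ∀ u v v', s v v' → A.Adj u v → ∃ u', s u u' ∧ A.Adj u' v')
    (hr : ∀ u v, s u v → rdeg A s u = rdeg A s v)
    (Δ : ℕ) (hΔ : ∀ v, (univ.filter (fun y => A.Adj v y)).card + D * (cls s v).card ≤ Δ)
    (w0 : W) :
    ∃ c : X × W → X × W → ℕ,
      (∀ p r, Relation.ReflTransGen (fun a b => A.Adj a b ∨ s a b) w0 p.2 →
        PAdj G A s p r → c p r < Δ) ∧
      (∀ p r, PAdj G A s p r → c p r = c r p) ∧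
      (∀ p r r', Relation.ReflTransGen (fun a b => A.Adj a b ∨ s a b) w0 p.2 →
        PAdj G A s p r → PAdj G A s p r' → c p r = c p r' → r = r') := by
  set U : W → Prop := fun v => Relation.ReflTransGen (fun a b => A.Adj a b ∨ s a b) w0 v with hU
  have hUA : ∀ u v, U u → A.Adj u v → U v := fun u v hu h => hu.tail (Or.inl h)
  have hUs : ∀ u v, U u → s u v → U v := fun u v hu h => hu.tail (Or.inr h)
  have hU0 : U w0 := Relation.ReflTransGen.refl
  obtain ⟨K, ω, R, hω, hKeven, hKlt, R_symm, R_irr, R_reg, R_root⟩ :=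
    root_exists A s hs hr U w0 hU0
  -- the regular relations on all classes
  have hRR : ∀ T : Finset W, ∃ RT : W → W → Prop, (T = cls s ω → RT = R) ∧
      (K < T.card → (∀ u v, RT u v → RT v u) ∧ (∀ u, ¬ RT u u) ∧
        ∀ u ∈ T, (T.filter (fun v => RT u v)).card = K) := by
    intro T
    by_cases hT : T = cls s ω
    · refine ⟨R, fun _ => rfl, fun _ => ⟨R_symm, R_irr, ?_⟩⟩
      rw [hT]; exact R_reg
    · by_cases hlt : K < T.card
      · obtain ⟨R1, h1, h2, h3⟩ := rel_exists T K hKeven hlt
        exact ⟨R1, fun h => absurd h hT, fun _ => ⟨h1, h2, h3⟩⟩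
      · exact ⟨R, fun h => absurd h hT, fun h => absurd h hlt⟩
  choose RR RR1 RR2 using hRR
  set Q : W → W → Prop := fun u v => s u v ∧ U u ∧ RR (cls s u) u v with hQ
  have Q_symm : ∀ u v, Q u v → Q v u := by
    rintro u v ⟨h1, h2, h3⟩
    have hv := hUs u v h2 h1
    refine ⟨hs.symm h1, hv, ?_⟩
    rw [← cls_eq hs h1]
    exact (RR2 (cls s u) (hKlt u h2)).1 u v h3
  have Q_irr : ∀ u, ¬ Q u u := by
    rintro u ⟨_, h2, h3⟩
    exact (RR2 (cls s u) (hKlt u h2)).2.1 u h3
  have Q_reg : ∀ u, U u → (univ.filter (fun v => Q u v)).card = K := by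
    intro u hu
    have h1 := (RR2 (cls s u) (hKlt u hu)).2.2 u (mem_cls.mpr (hs.refl u))
    rw [← h1]
    apply congrArg
    ext v
    simp only [Finset.mem_filter, Finset.mem_univ, true_and, hQ, mem_cls]
    tauto
  -- κ
  obtain ⟨κ0, κ1, κ2, κ3⟩ := konig (T := {u // U u}) K (fun u v => Q u.1 v.1)
    (by
      intro u
      rw [← Q_reg u.1 u.2]
      apply Finset.card_bij (fun v _ => v.1)
      · intro v hv
        simp only [Finset.mem_filter, Finset.mem_univ, true_and] at hv ⊢
        exact hv
      · intro v _ v' _ h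
        exact Subtype.ext h
      · intro v hv
        simp only [Finset.mem_filter, Finset.mem_univ, true_and] at hv
        exact ⟨⟨v, hUs _ _ u.2 hv.1⟩, by simpa using hv, rfl⟩)
    (by
      intro v
      rw [← Q_reg v.1 v.2]
      apply Finset.card_bij (fun u _ => u.1)
      · intro u hu
        simp only [Finset.mem_filter, Finset.mem_univ, true_and] at hu ⊢
        exact Q_symm _ _ hu
      · intro v _ v' _ h
        exact Subtype.ext h
      · intro u hu
        simp only [Finset.mem_filter, Finset.mem_univ, true_and] at hu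
        exact ⟨⟨u, hUs _ _ v.2 hu.1⟩, by simpa using Q_symm _ _ hu, rfl⟩)
  set κ : W → W → ℕ := fun u v => if h : U u ∧ U v then κ0 ⟨u, h.1⟩ ⟨v, h.2⟩ else 0 with hκ
  have hκval : ∀ u v (hu : U u) (hv : U v), κ u v = κ0 ⟨u, hu⟩ ⟨v, hv⟩ := by
    intro u v hu hv
    simp only [hκ]
    rw [dif_pos ⟨hu, hv⟩]
  -- multiplicities
  set μ : W → W → ℕ := fun u v => if U u ∧ U v then
    (if A.Adj u v then 1 else 0) + (if s u v then D - (if Q u v then 1 else 0) else 0) else 0 with hμ
  have μ_symm : ∀ u v, μ u v = μ v u := by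
    intro u v
    simp only [hμ]
    have h1 : A.Adj u v ↔ A.Adj v u := A.adj_comm u v
    have h2 : s u v ↔ s v u := ⟨hs.symm, hs.symm⟩
    have h3 : Q u v ↔ Q v u := ⟨Q_symm u v, Q_symm v u⟩
    simp only [h1, h2, h3, and_comm]
  have μ_val : ∀ u v, U u → μ u v =
      (if A.Adj u v then 1 else 0) + (if s u v then D - (if Q u v then 1 else 0) else 0) := by
    intro u v hu
    simp only [hμ]
    by_cases hv : U v
    · rw [if_pos ⟨hu, hv⟩]
    · have h1 : ¬ A.Adj u v := fun h => hv (hUA u v hu h)
      have h2 : ¬ s u v := fun h => hv (hUs u v hu h)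
      simp [hv, h1, h2]
  have hdeg : ∀ v, U v → deg μ v + D + K =
      (univ.filter (fun y => A.Adj v y)).card + D * (cls s v).card := by
    intro v hv
    have e1 : deg μ v = ∑ u ∈ univ.erase v, (if A.Adj v u then 1 else 0) +
        ∑ u ∈ univ.erase v, (if s v u then D - (if Q v u then 1 else 0) else 0) := by
      unfold deg
      rw [← Finset.sum_add_distrib]
      apply Finset.sum_congr rfl
      intro u _
      exact μ_val v u hv
    have e2 : ∑ u ∈ univ.erase v, (if A.Adj v u then 1 else 0) =
        (univ.filter (fun y => A.Adj v y)).card := by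
      rw [Finset.card_filter, ← Finset.add_sum_erase _ _ (Finset.mem_univ v)]
      simp
    have e3 : ∑ u ∈ univ.erase v, (if s v u then D - (if Q v u then 1 else 0) else 0) =
        ∑ u ∈ (cls s v).erase v, (D - (if Q v u then 1 else 0)) := by
      have : (cls s v).erase v = (univ.erase v).filter (fun u => s v u) := by
        ext u
        simp [cls]
      rw [this, Finset.sum_filter]
    have e4 : ∑ u ∈ (cls s v).erase v, (D - (if Q v u then 1 else 0)) +
        ∑ u ∈ (cls s v).erase v, (if Q v u then 1 else 0) = ((cls s v).card - 1) * D := by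
      rw [← Finset.sum_add_distrib]
      have : ∀ u ∈ (cls s v).erase v, (D - (if Q v u then 1 else 0)) + (if Q v u then 1 else 0) = D := by
        intro u _
        split_ifs <;> omega
      rw [Finset.sum_congr rfl this, Finset.sum_const,
        Finset.card_erase_of_mem (mem_cls.mpr (hs.refl v)), smul_eq_mul]
    have e5 : ∑ u ∈ (cls s v).erase v, (if Q v u then 1 else 0) = K := by
      rw [← Q_reg v hv, Finset.card_filter]
      apply Finset.sum_subset_zero_on_sdiff (Finset.subset_univ _)
      · intro u hu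
        rw [if_neg]
        intro h
        have h1 : u ∈ cls s v := mem_cls.mpr h.1
        have h2 : u ≠ v := by rintro rfl; exact Q_irr u h
        simp only [Finset.mem_sdiff, Finset.mem_univ, true_and, Finset.mem_erase, not_and] at hu
        exact hu h2 h1
      · intro u _; rfl
    have hpos : 0 < (cls s v).card := Finset.card_pos.mpr ⟨v, mem_cls.mpr (hs.refl v)⟩
    rw [e5] at e4
    rw [e1, e2, e3]
    obtain ⟨t, ht⟩ : ∃ t, (cls s v).card = t + 1 := ⟨(cls s v).card - 1, by omega⟩
    rw [ht, Nat.add_sub_cancel] at e4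
    rw [ht]
    have : D * (t + 1) = t * D + D := by ring
    omega
  have hdeg0 : ∀ v, ¬ U v → deg μ v = 0 := by
    intro v hv
    unfold deg
    apply Finset.sum_eq_zero
    intro u _
    simp only [hμ]
    rw [if_neg (fun h => hv h.1)]
  have hKΔ : K ≤ Δ := by
    have h1 := hdeg ω hω
    have h2 := hΔ ω
    omega
  set q := Δ - K with hq
  have H1 : ∀ y, deg μ y + D ≤ Fintype.card (Fin q) := by
    intro y
    rw [Fintype.card_fin]
    by_cases hy : U y
    · have h1 := hdeg y hy
      have h2 := hΔ y
      omega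
    · have h1 := hdeg ω hω
      have h2 := hΔ ω
      rw [hdeg0 y hy]
      omega
  have hμle : ∀ x y, μ x y ≤ D + 1 := by
    intro x y
    simp only [hμ]
    split_ifs <;> omega
  -- levels
  have lev_U : ∀ k v, lev A s ω k v → U v := by
    intro k
    induction k with
    | zero => intro v h; exact hUs ω v hω h
    | succ k ih =>
      rintro v ⟨u, hu, hadj⟩
      exact hUA u v (ih u hu) hadj
  have hUsymm : ∀ u v, U u → U v → Relation.ReflTransGen (fun a b => A.Adj a b ∨ s a b) u v := by
    intro u v hu hv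
    have : Std.Symm (fun a b => A.Adj a b ∨ s a b) := ⟨by
      intro a b h
      rcases h with h | h
      · exact Or.inl h.symm
      · exact Or.inr (hs.symm h)⟩
    exact (Relation.ReflTransGen.stdSymm.symm _ _ hu).trans hv
  have U_lev : ∀ v, U v → ∃ k, lev A s ω k v := by
    intro v hv
    have h := hUsymm ω v hω hv
    induction h with
    | refl => exact ⟨0, hs.refl ω⟩
    | @tail b c h1 h2 ih =>
      have hb : U b := by
        exact hω.trans h1
      obtain ⟨k, hk⟩ := ih hb
      rcases h2 with h2 | h2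
      · exact ⟨k + 1, b, hk, h2⟩
      · exact ⟨k, lev_cls A s hs hP ω k b c h2 hk⟩
  have level_cls : ∀ u v, s u v → level A s ω u = level A s ω v := by
    intro u v h
    unfold level
    congr 1
    ext k
    exact ⟨lev_cls A s hs hP ω k u v h, lev_cls A s hs hP ω k v u (hs.symm h)⟩
  have H3 : ∀ x y, level A s ω x ≠ level A s ω y → μ x y ≤ 1 := by
    intro x y h
    have h1 : ¬ s x y := fun h' => h (level_cls x y h')
    simp only [hμ]
    rw [if_neg h1]
    split_ifs <;> omega
  have H4 : ∀ y, level A s ω y ≠ 0 → ∃ u, level A s ω u < level A s ω y ∧ 1 ≤ μ y u := by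
    intro y hy
    have hne : {k | lev A s ω k y}.Nonempty := by
      by_contra h
      rw [Set.not_nonempty_iff_eq_empty] at h
      apply hy
      unfold level
      rw [h, Nat.sInf_empty]
    have h1 := Nat.sInf_mem hne
    obtain ⟨k, hk⟩ : ∃ k, level A s ω y = k + 1 := ⟨level A s ω y - 1, by omega⟩
    have h2 : lev A s ω (k + 1) y := by rw [← hk]; exact h1
    obtain ⟨u, hu, hadj⟩ := h2
    refine ⟨u, ?_, ?_⟩
    · have : level A s ω u ≤ k := Nat.sInf_le hu
      omega
    · have hUu := lev_U k u hu
      have hUy := hUA u y hUu hadj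
      rw [μ_val y u hUy, if_pos hadj.symm]
      omega
  have H5 : ∀ x, level A s ω x = 0 → ∃ ys, ∀ y, y ≠ x → level A s ω y = 0 → y ≠ ys →
      μ x y ≤ D := by
    intro x hx
    by_cases hUx : U x
    · have hne : {k | lev A s ω k x}.Nonempty := U_lev x hUx
      have h1 := Nat.sInf_mem hne
      have h2 : lev A s ω 0 x := by
        have h3 : sInf {k | lev A s ω k x} = 0 := hx
        rw [h3] at h1; exact h1
      obtain ⟨ys, hys⟩ := R_root x (mem_cls.mpr h2)
      refine ⟨ys, fun y hyx _ hyys => ?_⟩
      by_contra hcon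
      rw [μ_val x y hUx] at hcon
      have hadj : A.Adj x y := by
        by_contra h
        apply hcon
        rw [if_neg h]
        split_ifs <;> omega
      have hsxy : s x y := by
        by_contra h
        apply hcon
        rw [if_neg h]
        split_ifs; omega
      have hQn : ¬ Q x y := by
        intro h
        apply hcon
        rw [if_pos h]
        split_ifs; omega
      apply hyys
      apply hys y (mem_cls.mpr (hs.trans h2 hsxy)) hadj
      intro hR
      apply hQn
      refine ⟨hsxy, hUx, ?_⟩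
      rw [RR1 (cls s x) (cls_eq hs h2).symm]
      exact hR
    · refine ⟨x, fun y _ _ _ => ?_⟩
      simp only [hμ]
      rw [if_neg (fun h => hUx h.1)]
      omega
  obtain ⟨m, hm⟩ := colorable_of_level (C := Fin q) (μ := μ) (level A s ω) D hD H1
    (fun x y _ => hμle x y) H3 H4 H5 _ μ μ_symm (fun _ _ => le_refl _) rfl
  have hmiss : ∀ u, U u → D ≤ (missing m u).card := by
    intro u _
    have h1 := missing_add_deg m u
    have h2 : ∑ v ∈ univ.erase u, mult m u v = deg μ u := by
      unfold deg
      apply Finset.sum_congr rfl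
      intro v hv
      exact hm u v (Finset.mem_erase.mp hv).1.symm
    have h3 := H1 u
    omega
  obtain ⟨c, hc1, hc2, hc3⟩ := assemble G D hD g g_symm g_lt g_inj A s Q (fun _ _ h => hs.symm h)
    hs.refl U hUA hUs Q_symm Q_irr K κ
    (by
      intro u v hu hquv
      rw [hκval u v hu (hUs u v hu hquv.1)]
      exact κ1 _ _ hquv)
    (by
      intro u v v' hu h h' he
      have hv := hUs u v hu h.1
      have hv' := hUs u v' hu h'.1
      rw [hκval u v hu hv, hκval u v' hu hv'] at he
      exact congrArg Subtype.val (κ2 ⟨u, hu⟩ ⟨v, hv⟩ ⟨v', hv'⟩ h h' he))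
    (by
      intro u u' v hv h h' he
      have hu := hUs v u hv (hs.symm h.1)
      have hu' := hUs v u' hv (hs.symm h'.1)
      rw [hκval u v hu hv, hκval u' v hu' hv] at he
      exact congrArg Subtype.val (κ3 ⟨u, hu⟩ ⟨u', hu'⟩ ⟨v, hv⟩ h h' he))
    q m
    (by
      intro u v hu huv
      rw [hm u v huv, μ_val u v hu]
      congr)
    hmiss
  refine ⟨c, ?_, hc2, hc3⟩
  intro p r hp hadj
  have := hc1 p r hp hadj
  omega

end Pool.Agent.Lib.MP_632be6_co
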