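import Mathlib

/-!
# Vizing fans for edge-coloured multigraphs, in terms of families of involutions

A proper edge-colouring of a loopless multigraph on `V` with colour set `C` is the same thing as
a family of involutions `f c : V → V`: `f c v` is the other end of the edge of colour `c` at `v`,
or `v` itself if colour `c` is missing at `v`.
-/

set_option autoImplicit false

namespace Pool.Agent.Lib.MP_632be6_co

open Finset

/-- A family of involutions indexed by colours. -/
structure Fam (V C : Type*) where
  /-- the involutions -/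
  f : C → V → V
  /-- they are involutions -/
  inv : ∀ c v, f c (f c v) = v

section

variable {V C : Type*} [DecidableEq V] [Fintype C] [DecidableEq C]

/-- The number of edges between `u` and `v`. -/
def mult (m : Fam V C) (u v : V) : ℕ := ∑ c, if m.f c u = v then 1 else 0

/-- Indicator of the pair `x, y`. -/
def ind (x y u v : V) : ℕ := if (u = x ∧ v = y) ∨ (u = y ∧ v = x) then 1 else 0

/-- `m` colours everything in `μ` but one edge `x y`. -/
def Near (μ : V → V → ℕ) (x y : V) (m : Fam V C) : Prop :=
  ∀ u v, u ≠ v → mult m u v + ind x y u v = μ u v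

variable (C) in
/-- The multigraph with multiplicities `μ` has a proper edge-colouring with colour set `C`. -/
def Colorable (μ : V → V → ℕ) : Prop := ∃ m : Fam V C, ∀ u v, u ≠ v → mult m u v = μ u v

lemma add_edge (m : Fam V C) {x y : V} (hxy : x ≠ y) (c : C) (hx : m.f c x = x)
    (hy : m.f c y = y) :
    ∃ m' : Fam V C, (∀ u v, u ≠ v → mult m' u v = mult m u v + ind x y u v) ∧
      (∀ c', c' ≠ c → m'.f c' = m.f c') ∧
      (∀ v, v ≠ x → v ≠ y → m'.f c v = m.f c v) := by
  classical
  refine ⟨⟨fun c' v => if c' = c then (if v = x then y else if v = y then x else m.f c v)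
    else m.f c' v, ?_⟩, ?_, ?_, ?_⟩
  · intro c' v
    by_cases hc : c' = c
    · subst hc
      simp only [if_true]
      by_cases h1 : v = x
      · subst h1; simp [hxy.symm]
      · by_cases h2 : v = y
        · subst h2; simp [h1]
        · have h3 : m.f c' v ≠ x := by
            intro h; apply h1; rw [← m.inv c' v, h, hx]
          have h4 : m.f c' v ≠ y := by
            intro h; apply h2; rw [← m.inv c' v, h, hy]
          simp [h1, h2, h3, h4, m.inv]
    · simp [hc, m.inv]
  · intro u v huv
    unfold mult
    rw [← Finset.add_sum_erase _ _ (Finset.mem_univ c), ← Finset.add_sum_erase _ _ (Finset.mem_univ c)]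
    have hs : ∑ x_1 ∈ univ.erase c, (if (if x_1 = c then (if u = x then y else if u = y then x
        else m.f c u) else m.f x_1 u) = v then 1 else 0) =
        ∑ x_1 ∈ univ.erase c, (if m.f x_1 u = v then 1 else 0) := by
      apply Finset.sum_congr rfl
      intro c' hc'
      rw [Finset.mem_erase] at hc'
      simp [hc'.1]
    simp only [] at hs ⊢
    rw [hs]
    clear hs
    simp only [if_true, ind]
    by_cases h1 : u = x
    · subst h1
      have h5 : ¬ (u = y) := hxy
      by_cases h6 : v = y
      · subst h6; simp [hx, hxy]; omega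
      · have : ¬ (y = v) := fun h => h6 h.symm
        simp [hx, h6, huv, this, h5]
    · by_cases h2 : u = y
      · subst h2
        by_cases h6 : v = x
        · subst h6; simp [hy, h1]; omega
        · have : ¬ (x = v) := fun h => h6 h.symm
          simp [hy, h6, huv, this, h1]
      · simp [h1, h2]
  · intro c' hc'
    funext v
    simp [hc']
  · intro v h1 h2
    simp [h1, h2]

lemma remove_edge (m : Fam V C) {x y : V} (hxy : x ≠ y) (c : C) (hx : m.f c x = y) :
    ∃ m' : Fam V C, (∀ u v, u ≠ v → mult m u v = mult m' u v + ind x y u v) ∧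
      (∀ c', c' ≠ c → m'.f c' = m.f c') ∧
      (∀ v, v ≠ x → v ≠ y → m'.f c v = m.f c v) ∧ m'.f c x = x ∧ m'.f c y = y := by
  classical
  have hy : m.f c y = x := by rw [← hx, m.inv]
  refine ⟨⟨fun c' v => if c' = c then (if v = x then x else if v = y then y else m.f c v)
    else m.f c' v, ?_⟩, ?_, ?_, ?_, ?_, ?_⟩
  · intro c' v
    by_cases hc : c' = c
    · subst hc
      simp only [if_true]
      by_cases h1 : v = x
      · subst h1; simp
      · by_cases h2 : v = y
        · subst h2; simp [h1]
        · have h3 : m.f c' v ≠ x := by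
            intro h; apply h2; rw [← m.inv c' v, h, hx]
          have h4 : m.f c' v ≠ y := by
            intro h; apply h1; rw [← m.inv c' v, h, hy]
          simp [h1, h2, h3, h4, m.inv]
    · simp [hc, m.inv]
  · intro u v huv
    unfold mult
    rw [← Finset.add_sum_erase _ _ (Finset.mem_univ c), ← Finset.add_sum_erase _ _ (Finset.mem_univ c)]
    have hs : ∑ x_1 ∈ univ.erase c, (if (if x_1 = c then (if u = x then x else if u = y then y
        else m.f c u) else m.f x_1 u) = v then 1 else 0) =
        ∑ x_1 ∈ univ.erase c, (if m.f x_1 u = v then 1 else 0) := by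
      apply Finset.sum_congr rfl
      intro c' hc'
      rw [Finset.mem_erase] at hc'
      simp [hc'.1]
    simp only [] at hs ⊢
    rw [hs]
    clear hs
    simp only [if_true, ind]
    by_cases h1 : u = x
    · subst h1
      have h5 : ¬ (u = y) := hxy
      by_cases h6 : v = y
      · subst h6; simp [hx, hxy]; omega
      · have : ¬ (y = v) := fun h => h6 h.symm
        simp [hx, h6, huv, this, h5]
    · by_cases h2 : u = y
      · subst h2
        by_cases h6 : v = x
        · subst h6; simp [hy, h1]; omega
        · have : ¬ (x = v) := fun h => h6 h.symm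
          simp [hy, h6, huv, this, h1]
      · simp [h1, h2]
  · intro c' hc'
    funext v
    simp [hc']
  · intro v h1 h2
    simp [h1, h2]
  · simp
  · simp [hxy.symm]

lemma recolor (m : Fam V C) {x z : V} (hxz : x ≠ z) (γ β : C) (hγ : m.f γ x = z)
    (hβx : m.f β x = x) (hβz : m.f β z = z) :
    ∃ m' : Fam V C, (∀ u v, u ≠ v → mult m' u v = mult m u v) ∧
      (∀ c', c' ≠ γ → c' ≠ β → m'.f c' = m.f c') ∧
      (∀ v, v ≠ x → v ≠ z → m'.f γ v = m.f γ v) ∧ m'.f γ x = x := by
  have hne : β ≠ γ := by
    rintro rfl
    exact hxz (hβx.symm.trans hγ)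
  obtain ⟨m1, h1, h2, h3, h4, h5⟩ := remove_edge m hxz γ hγ
  have hb : m1.f β = m.f β := h2 β hne
  obtain ⟨m2, g1, g2, g3⟩ := add_edge m1 hxz β (by rw [hb, hβx]) (by rw [hb, hβz])
  refine ⟨m2, ?_, ?_, ?_, ?_⟩
  · intro u v huv
    rw [g1 u v huv, h1 u v huv]
  · intro c' hc1 hc2
    rw [g2 c' hc2, h2 c' hc1]
  · intro v hv1 hv2
    rw [g2 γ hne.symm]
    exact h3 v hv1 hv2
  · rw [g2 γ hne.symm]
    exact h4

/-- Kempe change on a set closed under the two colours. -/
lemma kempe (m : Fam V C) (a b : C) (S : V → Prop)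
    (hSa : ∀ v, S v → S (m.f a v)) (hSb : ∀ v, S v → S (m.f b v)) :
    ∃ m' : Fam V C, (∀ u v, mult m' u v = mult m u v) ∧
      (∀ c v, ¬ S v → m'.f c v = m.f c v) ∧
      (∀ c v, S v → m'.f c v = m.f (Equiv.swap a b c) v) := by
  classical
  have key : ∀ c, Equiv.swap a b c ≠ c → (c = a ∨ c = b) := by
    intro c hc
    by_contra h
    push Not at h
    exact hc (Equiv.swap_apply_of_ne_of_ne h.1 h.2)
  refine ⟨⟨fun c v => if S v then m.f (Equiv.swap a b c) v else m.f c v, ?_⟩, ?_, ?_, ?_⟩
  · intro c v
    by_cases hc : Equiv.swap a b c = c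
    · simp [hc, m.inv]
    · by_cases hv : S v
      · have hS : S (m.f (Equiv.swap a b c) v) := by
          rcases key c hc with h | h
          · subst h; rw [Equiv.swap_apply_left]; exact hSb v hv
          · subst h; rw [Equiv.swap_apply_right]; exact hSa v hv
        simp [hv, hS, m.inv]
      · have hS : ¬ S (m.f c v) := by
          intro h
          apply hv
          rcases key c hc with h' | h'
          · subst h'; rw [← m.inv c v]; exact hSa _ h
          · subst h'; rw [← m.inv c v]; exact hSb _ h
        simp [hv, hS, m.inv]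
  · intro u v
    unfold mult
    by_cases hu : S u
    · simp only [hu, if_true]
      exact Equiv.sum_comp (Equiv.swap a b) (fun c => if m.f c u = v then 1 else 0)
    · simp [hu]
  · intro c v hv
    simp [hv]
  · intro c v hv
    simp [hv]

/-- An involution as a permutation. -/
def Fam.perm (m : Fam V C) (c : C) : Equiv.Perm V := ⟨m.f c, m.f c, m.inv c, m.inv c⟩

omit [DecidableEq V] [Fintype C] [DecidableEq C] in
@[simp] lemma Fam.perm_apply (m : Fam V C) (c : C) (v : V) : m.perm c v = m.f c v := rfl

omit [DecidableEq V] [Fintype C] [DecidableEq C] in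
lemma Fam.perm_inv (m : Fam V C) (c : C) : (m.perm c)⁻¹ = m.perm c := rfl

/-- The two-coloured component of an endpoint `y`. -/
def chain (m : Fam V C) (a b : C) (y : V) (v : V) : Prop :=
  ∃ n : ℤ, ((m.perm b * m.perm a) ^ n) y = v

omit [DecidableEq V] [Fintype C] [DecidableEq C] in
lemma chain_a_aux (m : Fam V C) (a b : C) (y : V) (hy : m.f a y = y) (n : ℤ) :
    m.f a (((m.perm b * m.perm a) ^ n) y) = ((m.perm b * m.perm a) ^ (-n)) y := by
  have h1 : m.perm a * (m.perm b * m.perm a) ^ n * (m.perm a)⁻¹ =
      (m.perm b * m.perm a) ^ (-n) := by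
    rw [← conj_zpow, zpow_neg, ← inv_zpow]
    congr 1
    rw [mul_inv_rev, m.perm_inv, m.perm_inv, mul_assoc, mul_assoc]
    nth_rewrite 3 [← m.perm_inv a]
    rw [mul_inv_cancel, mul_one]
  rw [← h1, m.perm_inv, Equiv.Perm.mul_apply, Equiv.Perm.mul_apply, m.perm_apply, m.perm_apply, hy]

omit [DecidableEq V] [Fintype C] [DecidableEq C] in
lemma chain_b_aux (m : Fam V C) (a b : C) (y : V) (hy : m.f a y = y) (n : ℤ) :
    m.f b (((m.perm b * m.perm a) ^ n) y) = ((m.perm b * m.perm a) ^ (1 - n)) y := by
  have h := chain_a_aux m a b y hy n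
  have h2 : ((m.perm b * m.perm a) ^ (1 - n)) y =
      (m.perm b * m.perm a) (((m.perm b * m.perm a) ^ (-n)) y) := by
    rw [sub_eq_add_neg, zpow_add, zpow_one, Equiv.Perm.mul_apply]
  rw [h2, ← h, Equiv.Perm.mul_apply, m.perm_apply, m.perm_apply, m.inv]

omit [DecidableEq V] [Fintype C] [DecidableEq C] in
lemma chain_closed_a (m : Fam V C) (a b : C) (y : V) (hy : m.f a y = y) (v : V)
    (h : chain m a b y v) : chain m a b y (m.f a v) := by
  obtain ⟨n, rfl⟩ := h
  exact ⟨-n, (chain_a_aux m a b y hy n).symm⟩

omit [DecidableEq V] [Fintype C] [DecidableEq C] in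
lemma chain_closed_b (m : Fam V C) (a b : C) (y : V) (hy : m.f a y = y) (v : V)
    (h : chain m a b y v) : chain m a b y (m.f b v) := by
  obtain ⟨n, rfl⟩ := h
  exact ⟨1 - n, (chain_b_aux m a b y hy n).symm⟩

omit [DecidableEq V] [Fintype C] [DecidableEq C] in
/-- A two-coloured component has at most two ends. -/
lemma three_ends (m : Fam V C) (a b : C) (x y y' : V) (hy : m.f a y = y) (hy' : m.f a y' = y')
    (hx : m.f b x = x) (h : chain m a b y x) (h' : chain m a b y' x) : y = y' := by
  obtain ⟨j, hj⟩ := h
  obtain ⟨l, hl⟩ := h'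
  set τ := m.perm b * m.perm a with hτ
  -- y' = τ ^ (j - l) y
  have h1 : y' = (τ ^ (j - l)) y := by
    have : (τ ^ (-l)) ((τ ^ l) y') = (τ ^ (-l)) ((τ ^ j) y) := by rw [hl, hj]
    rw [← Equiv.Perm.mul_apply, ← Equiv.Perm.mul_apply, ← zpow_add, ← zpow_add] at this
    rw [neg_add_cancel, zpow_zero, Equiv.Perm.one_apply] at this
    rw [this]; congr 2; ring
  set i := j - l with hi
  have h2 : (τ ^ (-i)) y = (τ ^ i) y := by
    rw [← chain_a_aux m a b y hy i, ← hτ, ← h1, hy']
  have h3 : (τ ^ (2 * i)) y = y := by
    have : (τ ^ i) ((τ ^ (-i)) y) = (τ ^ i) ((τ ^ i) y) := by rw [h2]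
    rw [← Equiv.Perm.mul_apply, ← Equiv.Perm.mul_apply, ← zpow_add, ← zpow_add] at this
    rw [add_neg_cancel, zpow_zero, Equiv.Perm.one_apply] at this
    rw [two_mul]; exact this.symm
  have h4 : (τ ^ (1 - j)) y = (τ ^ j) y := by
    rw [← chain_b_aux m a b y hy j, ← hτ, hj, hx]
  have h5 : (τ ^ (2 * j - 1)) y = y := by
    have : (τ ^ (j - 1)) ((τ ^ (1 - j)) y) = (τ ^ (j - 1)) ((τ ^ j) y) := by rw [h4]
    rw [← Equiv.Perm.mul_apply, ← Equiv.Perm.mul_apply, ← zpow_add, ← zpow_add] at this
    have e1 : j - 1 + (1 - j) = 0 := by ring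
    have e2 : j - 1 + j = 2 * j - 1 := by ring
    rw [e1, e2, zpow_zero, Equiv.Perm.one_apply] at this
    exact this.symm
  have h6 : (τ ^ i) y = y := by
    have e : i = (2 * i) * j + (2 * j - 1) * (-i) := by ring
    have e1 : (τ ^ (2 * i * j)) y = y := by
      rw [zpow_mul]
      exact Equiv.Perm.zpow_apply_eq_self_of_apply_eq_self h3 j
    have e2 : (τ ^ ((2 * j - 1) * (-i))) y = y := by
      rw [zpow_mul]
      exact Equiv.Perm.zpow_apply_eq_self_of_apply_eq_self h5 (-i)
    rw [e, zpow_add, Equiv.Perm.mul_apply, e2, e1]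
  rw [h1, h6]

/-- Vertices reachable by a fan at `x` starting from `y₀`, with the length of the fan. -/
inductive Reach (m : Fam V C) (x y₀ : V) : ℕ → V → Prop
  | base : Reach m x y₀ 0 y₀
  | step {n : ℕ} {z : V} (c : C) : Reach m x y₀ n z → m.f c z = z → m.f c x ≠ x →
      Reach m x y₀ (n + 1) (m.f c x)

omit [DecidableEq V] [Fintype C] [DecidableEq C] in
lemma Reach.ne {m : Fam V C} {x y₀ : V} (h0 : x ≠ y₀) {n : ℕ} {z : V} (h : Reach m x y₀ n z) :
    x ≠ z := by
  cases h with
  | base => exact h0
  | step c _ _ h3 => exact h3.symm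

/-- If a reachable vertex misses a colour that `x` misses, the colouring can be completed. -/
lemma reach_done (μ : V → V → ℕ) {x y₀ : V} (h0 : x ≠ y₀) :
    ∀ (n : ℕ) (m : Fam V C), Near μ x y₀ m → ∀ z, Reach m x y₀ n z → ∀ β, m.f β z = z →
      m.f β x = x → Colorable C μ := by
  intro n
  induction n using Nat.strong_induction_on with
  | _ n ih =>
    intro m hm z hz β hβz hβx
    by_cases hmin : ∃ k, k < n ∧ Reach m x y₀ k z
    · obtain ⟨k, hk, hk'⟩ := hmin
      exact ih k hk m hm z hk' β hβz hβx
    · push Not at hmin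
      cases hz with
      | base =>
        obtain ⟨m', h1, _⟩ := add_edge m h0 β hβx hβz
        refine ⟨m', fun u v huv => ?_⟩
        rw [h1 u v huv, hm u v huv]
      | @step n w c hw hcw hcx =>
        set z := m.f c x with hzdef
        obtain ⟨m', h1, h2, h3, h4⟩ := recolor m hcx.symm c β rfl hβx hβz
        have hm' : Near μ x y₀ m' := by
          intro u v huv
          rw [h1 u v huv]; exact hm u v huv
        have tr : ∀ i, i ≤ n → ∀ v, Reach m x y₀ i v → Reach m' x y₀ i v := by
          intro i
          induction i with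
          | zero =>
            intro _ v hv
            cases hv
            exact Reach.base
          | succ i ihi =>
            intro hi v hv
            cases hv with
            | @step _ v' c' hv' hc1 hc2 =>
              have h5 := ihi (by omega) v' hv'
              have hne1 : c' ≠ c := by
                rintro rfl
                exact hmin (i + 1) (by omega) (Reach.step c' hv' hc1 hc2)
              have hne2 : c' ≠ β := by
                rintro rfl
                exact hc2 hβx
              have h6 := h2 c' hne1 hne2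
              have h7 : m.f c' x = m'.f c' x := by rw [h6]
              rw [h7]
              exact Reach.step c' h5 (by rw [h6]; exact hc1) (by rw [h6]; exact hc2)
        have hwx : w ≠ x := (hw.ne h0).symm
        have hwz : w ≠ z := by
          rintro rfl
          exact hmin n (by omega) hw
        exact ih n (by omega) m' hm' w (tr n le_rfl w hw) c (by rw [h3 w hwx hwz]; exact hcw) h4

/-- Kempe change argument. -/
lemma reach_kempe (μ : V → V → ℕ) {x y₀ : V} (h0 : x ≠ y₀) (m : Fam V C) (hm : Near μ x y₀ m)
    (α β : C) (S : V → Prop) (hSa : ∀ v, S v → S (m.f α v)) (hSb : ∀ v, S v → S (m.f β v))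
    (hxS : ¬ S x) (hβx : m.f β x = x) (z : V) (n : ℕ) (hz : Reach m x y₀ n z) (hzS : S z)
    (hαz : m.f α z = z) : Colorable C μ := by
  obtain ⟨m', h1, h2, h3⟩ := kempe m α β S hSa hSb
  have hm' : Near μ x y₀ m' := by
    intro u v huv
    rw [h1 u v]; exact hm u v huv
  have hβx' : m'.f β x = x := by rw [h2 β x hxS, hβx]
  by_contra hcon
  have claim : ∀ i v, Reach m x y₀ i v → Reach m' x y₀ i v := by
    intro i v hv
    induction hv with
    | base => exact Reach.base
    | @step i v c hv hc1 hc2 ih =>
      have hxx : m'.f c x = m.f c x := h2 c x hxS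
      have hcv : m'.f c v = v := by
        by_cases hSv : S v
        · rw [h3 c v hSv]
          by_cases hca : c = α
          · subst hca
            -- then beta is missing at v in m'
            exfalso
            apply hcon
            refine reach_done μ h0 i m' hm' v ih β ?_ hβx'
            rw [h3 β v hSv, Equiv.swap_apply_right]; exact hc1
          · by_cases hcb : c = β
            · subst hcb
              exact absurd hβx hc2
            · rw [Equiv.swap_apply_of_ne_of_ne hca hcb]; exact hc1
        · rw [h2 c v hSv]; exact hc1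
      rw [← hxx]
      exact Reach.step c ih hcv (by rw [hxx]; exact hc2)
  apply hcon
  refine reach_done μ h0 n m' hm' z (claim n z hz) β ?_ hβx'
  rw [h3 β z hzS, Equiv.swap_apply_right]; exact hαz

end

section

variable {V C : Type*} [Fintype V] [DecidableEq V] [Fintype C] [DecidableEq C]

/-- The colours missing at `v`. -/
def missing (m : Fam V C) (v : V) : Finset C := univ.filter (fun c => m.f c v = v)

/-- Degree of `v` in the multigraph `μ`. -/
def deg (μ : V → V → ℕ) (v : V) : ℕ := ∑ u ∈ univ.erase v, μ v u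

omit [Fintype V] [DecidableEq C] in
lemma sum_mult (m : Fam V C) (v : V) (T : Finset V) :
    ∑ u ∈ T, mult m v u = (univ.filter (fun c => m.f c v ∈ T)).card := by
  unfold mult
  rw [Finset.sum_comm, Finset.card_filter]
  apply Finset.sum_congr rfl
  intro c _
  rw [Finset.sum_ite_eq]

lemma missing_add_deg (m : Fam V C) (v : V) :
    (missing m v).card + ∑ u ∈ univ.erase v, mult m v u = Fintype.card C := by
  rw [sum_mult, missing, ← Finset.card_univ, ← Finset.card_filter_add_card_filter_not
    (s := univ) (fun c => m.f c v = v)]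
  congr 1
  apply congrArg
  ext c
  simp

/-- The fan lemma. -/
theorem fan (μ : V → V → ℕ) {x y₀ : V} (h0 : x ≠ y₀) (m : Fam V C)
    (hm : Near μ x y₀ m) (hx : deg μ x ≤ Fintype.card C) (ys : V)
    (h1 : ∀ y, y ≠ x → y ≠ ys → μ x y + deg μ y ≤ Fintype.card C)
    (h2 : ys ≠ x → μ x ys + deg μ ys ≤ Fintype.card C + 1) : Colorable C μ := by
  classical
  by_contra hcon
  -- degrees
  have hind : ∀ v, ∑ u ∈ univ.erase v, ind x y₀ v u = if v = x ∨ v = y₀ then 1 else 0 := by
    intro v
    unfold ind
    by_cases hvx : v = x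
    · subst hvx
      have : ∀ u ∈ univ.erase v, (if (v = v ∧ u = y₀) ∨ (v = y₀ ∧ u = v) then 1 else 0) =
          if u = y₀ then 1 else 0 := by
        intro u _
        simp [h0]
      rw [Finset.sum_congr rfl this, Finset.sum_ite_eq']
      simp [h0.symm]
    · by_cases hvy : v = y₀
      · subst hvy
        have : ∀ u ∈ univ.erase v, (if (v = x ∧ u = v) ∨ (v = v ∧ u = x) then 1 else 0) =
            if u = x then 1 else 0 := by
          intro u _
          simp [hvx]
        rw [Finset.sum_congr rfl this, Finset.sum_ite_eq']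
        simp [h0]
      · simp [hvx, hvy]
  have hdeg : ∀ v, deg μ v + (missing m v).card =
      Fintype.card C + if v = x ∨ v = y₀ then 1 else 0 := by
    intro v
    have h3 : deg μ v = ∑ u ∈ univ.erase v, mult m v u + ∑ u ∈ univ.erase v, ind x y₀ v u := by
      unfold deg
      rw [← Finset.sum_add_distrib]
      apply Finset.sum_congr rfl
      intro u hu
      rw [Finset.mem_erase] at hu
      exact (hm v u hu.1.symm).symm
    have h4 := missing_add_deg m v
    rw [h3, hind v]
    omega
  -- x misses a colour
  have hmx : ∃ β, m.f β x = x := by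
    have h3 := hdeg x
    simp only [true_or, if_true] at h3
    have h4 : 0 < (missing m x).card := by omega
    obtain ⟨β, hβ⟩ := Finset.card_pos.mp h4
    exact ⟨β, (Finset.mem_filter.mp hβ).2⟩
  obtain ⟨β, hβ⟩ := hmx
  -- reachable set
  set Y : Finset V := univ.filter (fun z => ∃ n, Reach m x y₀ n z) with hY
  have hxY : ∀ z ∈ Y, x ≠ z := by
    intro z hz
    obtain ⟨n, hn⟩ := (Finset.mem_filter.mp hz).2
    exact hn.ne h0
  have hy0Y : y₀ ∈ Y := Finset.mem_filter.mpr ⟨Finset.mem_univ _, 0, Reach.base⟩
  have hnotx : ∀ z ∈ Y, ∀ c, m.f c z = z → m.f c x ≠ x := by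
    intro z hz c hc hcx
    obtain ⟨n, hn⟩ := (Finset.mem_filter.mp hz).2
    exact hcon (reach_done μ h0 n m hm z hn c hc hcx)
  have hstep : ∀ z ∈ Y, ∀ c, m.f c z = z → m.f c x ∈ Y := by
    intro z hz c hc
    obtain ⟨n, hn⟩ := (Finset.mem_filter.mp hz).2
    exact Finset.mem_filter.mpr ⟨Finset.mem_univ _, n + 1, Reach.step c hn hc (hnotx z hz c hc)⟩
  have hdisj : ∀ z ∈ Y, ∀ z' ∈ Y, z ≠ z' → Disjoint (missing m z) (missing m z') := by
    intro z hz z' hz' hne
    rw [Finset.disjoint_left]
    intro α hα hα'
    have h3 : m.f α z = z := (Finset.mem_filter.mp hα).2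
    have h4 : m.f α z' = z' := (Finset.mem_filter.mp hα').2
    obtain ⟨n, hn⟩ := (Finset.mem_filter.mp hz).2
    obtain ⟨n', hn'⟩ := (Finset.mem_filter.mp hz').2
    by_cases hc1 : chain m α β z x
    · by_cases hc2 : chain m α β z' x
      · exact hne (three_ends m α β x z z' h3 h4 hβ hc1 hc2)
      · exact hcon (reach_kempe μ h0 m hm α β (chain m α β z')
          (fun v hv => chain_closed_a m α β z' h4 v hv)
          (fun v hv => chain_closed_b m α β z' h4 v hv) hc2 hβ z' n' hn' ⟨0, rfl⟩ h4)
    · exact hcon (reach_kempe μ h0 m hm α β (chain m α β z)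
          (fun v hv => chain_closed_a m α β z h3 v hv)
          (fun v hv => chain_closed_b m α β z h3 v hv) hc1 hβ z n hn ⟨0, rfl⟩ h3)
  -- counting
  have hcount : ∑ z ∈ Y, (missing m z).card ≤ ∑ z ∈ Y, mult m x z := by
    rw [sum_mult, ← Finset.card_biUnion]
    · apply Finset.card_le_card
      intro c hc
      rw [Finset.mem_biUnion] at hc
      obtain ⟨z, hz, hcz⟩ := hc
      exact Finset.mem_filter.mpr ⟨Finset.mem_univ _, hstep z hz c (Finset.mem_filter.mp hcz).2⟩
    · intro z hz z' hz' hne
      exact hdisj z hz z' hz' hne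
  -- pointwise comparison
  have hpt : ∀ z ∈ Y, mult m x z + (if z = y₀ then 2 else 0) ≤
      (missing m z).card + (if z = ys then 1 else 0) := by
    intro z hz
    have hzx : z ≠ x := (hxY z hz).symm
    have h3 := hdeg z
    have h4 := hm x z (hxY z hz)
    have h5 : ind x y₀ x z = if z = y₀ then 1 else 0 := by
      unfold ind
      by_cases h : z = y₀ <;> simp [h, h0]
    rw [h5] at h4
    have h6 : (if z = x ∨ z = y₀ then 1 else 0) = if z = y₀ then 1 else 0 := by
      simp [hzx]
    rw [h6] at h3
    by_cases hzs : z = ys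
    · have h7 := h2 (by rw [← hzs]; exact hzx)
      rw [← hzs] at h7
      by_cases h8 : z = y₀
      · simp only [h8, if_true] at h3 h4 h7 ⊢
        rw [← h8] at *
        simp only [hzs, if_true] at *
        omega
      · simp only [h8, if_false] at h3 h4 ⊢
        simp only [hzs, if_true] at *
        omega
    · have h7 := h1 z hzx hzs
      by_cases h8 : z = y₀
      · simp only [h8, if_true] at h3 h4 h7 ⊢
        omega
      · simp only [h8, if_false] at h3 h4 ⊢
        omega
  have hsum := Finset.sum_le_sum hpt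
  rw [Finset.sum_add_distrib, Finset.sum_add_distrib, Finset.sum_ite_eq', Finset.sum_ite_eq'] at hsum
  rw [if_pos hy0Y] at hsum
  have : (if ys ∈ Y then 1 else 0) ≤ 1 := by split_ifs <;> omega
  omega

end

end Pool.Agent.Lib.MP_632be6_co
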