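import Pool.Agent.Lib.MP_632be6_co.Fan

/-!
# Colouring a levelled multigraph

Every edge is added with a fan centred at its endpoint of lower level.
-/

set_option autoImplicit false

namespace Pool.Agent.Lib.MP_632be6_co

open Finset

variable {V C : Type*} [Fintype V] [DecidableEq V] [Fintype C] [DecidableEq C]

omit [Fintype V] [DecidableEq C] in
lemma colorable_zero (ν : V → V → ℕ) (h : ∀ u v, u ≠ v → ν u v = 0) : Colorable C ν := by
  refine ⟨⟨fun _ v => v, fun _ _ => rfl⟩, fun u v huv => ?_⟩
  rw [h u v huv]
  unfold mult
  simp [huv]

theorem colorable_of_level {μ : V → V → ℕ} (level : V → ℕ) (D : ℕ) (hD : 1 ≤ D)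
    (H1 : ∀ y, deg μ y + D ≤ Fintype.card C)
    (H2 : ∀ x y, x ≠ y → μ x y ≤ D + 1)
    (H3 : ∀ x y, level x ≠ level y → μ x y ≤ 1)
    (H4 : ∀ y, level y ≠ 0 → ∃ u, level u < level y ∧ 1 ≤ μ y u)
    (H5 : ∀ x, level x = 0 → ∃ ys, ∀ y, y ≠ x → level y = 0 → y ≠ ys → μ x y ≤ D) :
    ∀ (n : ℕ) (ν : V → V → ℕ), (∀ u v, ν u v = ν v u) → (∀ u v, ν u v ≤ μ u v) →
      ∑ u, ∑ v ∈ univ.erase u, ν u v = n → Colorable C ν := by
  classical
  intro n
  induction n using Nat.strong_induction_on with
  | _ n ih =>
    intro ν hsym hle hn
    by_cases hz : ∀ u v, u ≠ v → ν u v = 0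
    · exact colorable_zero ν hz
    · push Not at hz
      obtain ⟨a, b, hab, hνab⟩ := hz
      obtain ⟨⟨x, y₀⟩, hmem, hmin⟩ := Finset.exists_min_image
        (univ.filter (fun p : V × V => p.1 ≠ p.2 ∧ ν p.1 p.2 ≠ 0)) (fun p => level p.1)
        ⟨(a, b), by simp [hab, hνab]⟩
      simp only [Finset.mem_filter, Finset.mem_univ, true_and] at hmem
      obtain ⟨h0, hν0⟩ := hmem
      have hlow : ∀ u v, u ≠ v → ν u v ≠ 0 → level x ≤ level u := by
        intro u v huv hν
        exact hmin (u, v) (by simp [huv, hν])
      have hlow' : ∀ u v, u ≠ v → ν u v ≠ 0 → level x ≤ level v := by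
        intro u v huv hν
        exact hlow v u huv.symm (by rw [← hsym]; exact hν)
      set ν' : V → V → ℕ := fun u v => ν u v - ind x y₀ u v with hν'
      have hindle : ∀ u v, ind x y₀ u v ≤ ν u v := by
        intro u v
        unfold ind
        split_ifs with h
        · rcases h with ⟨rfl, rfl⟩ | ⟨rfl, rfl⟩
          · omega
          · rw [hsym]; omega
        · omega
      have hind_symm : ∀ u v, ind x y₀ u v = ind x y₀ v u := by
        intro u v
        unfold ind
        congr 1
        apply propext
        tauto
      have hsum : ∑ u, ∑ v ∈ univ.erase u, ν' u v < ∑ u, ∑ v ∈ univ.erase u, ν u v := by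
        apply Finset.sum_lt_sum
        · intro u _
          apply Finset.sum_le_sum
          intro v _
          exact Nat.sub_le _ _
        · refine ⟨x, Finset.mem_univ _, ?_⟩
          apply Finset.sum_lt_sum
          · intro v _
            exact Nat.sub_le _ _
          · refine ⟨y₀, by simp [h0.symm], ?_⟩
            have : ind x y₀ x y₀ = 1 := by simp [ind]
            simp only [hν', this]
            omega
      obtain ⟨m, hm⟩ := ih _ (by rw [hn] at hsum; exact hsum) ν'
        (fun u v => by simp only [hν']; rw [hsym u v, hind_symm u v])
        (fun u v => (Nat.sub_le _ _).trans (hle u v)) rfl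
      have hnear : Near ν x y₀ m := by
        intro u v huv
        rw [hm u v huv]
        simp only [hν']
        have := hindle u v
        omega
      have hdegle : ∀ y, deg ν y ≤ deg μ y := by
        intro y
        exact Finset.sum_le_sum (fun v _ => hle y v)
      -- the exceptional vertex
      have hex : ∃ ys, (level x ≠ 0 → ys = x) ∧
          (level x = 0 → ∀ y, y ≠ x → level y = 0 → y ≠ ys → μ x y ≤ D) := by
        by_cases hl : level x = 0
        · obtain ⟨ys, hys⟩ := H5 x hl
          exact ⟨ys, fun h => absurd hl h, fun _ => hys⟩
        · exact ⟨x, fun _ => rfl, fun h => absurd h hl⟩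
      obtain ⟨ys, hys1, hys2⟩ := hex
      -- key bound for a neighbour y of x
      have key : ∀ y, y ≠ x → (level x = 0 → level y = 0 → y ≠ ys) →
          ν x y + deg ν y ≤ Fintype.card C := by
        intro y hyx hys
        by_cases h : ν x y = 0
        · have h1 := H1 y
          have h2 := hdegle y
          omega
        · have hl := hlow' x y hyx.symm h
          have h1 := H1 y
          have h2 := hdegle y
          have h3 := hle x y
          by_cases hll : level x = level y
          · by_cases hl0 : level x = 0
            · have h4 := hys2 hl0 y hyx (hll ▸ hl0) (hys hl0 (hll ▸ hl0))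
              omega
            · obtain ⟨u, hu1, hu2⟩ := H4 y (by rw [← hll]; exact hl0)
              have huy : u ≠ y := by rintro rfl; omega
              have hνyu : ν y u = 0 := by
                by_contra hne
                have := hlow' y u huy.symm hne
                omega
              have h4 : deg ν y + 1 ≤ deg μ y := by
                unfold deg
                rw [← Finset.add_sum_erase _ _ (Finset.mem_erase.mpr ⟨huy, Finset.mem_univ u⟩),
                  ← Finset.add_sum_erase (univ.erase y) (fun u => μ y u)
                    (Finset.mem_erase.mpr ⟨huy, Finset.mem_univ u⟩)]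
                have h5 : ∑ v ∈ (univ.erase y).erase u, ν y v ≤
                    ∑ v ∈ (univ.erase y).erase u, μ y v :=
                  Finset.sum_le_sum (fun v _ => hle y v)
                rw [hνyu]
                omega
              have h5 := H2 x y hyx.symm
              omega
          · have h4 := H3 x y hll
            omega
      apply fan ν h0 m hnear
      · have h1 := H1 x
        have h2 := hdegle x
        omega
      · intro y hyx hyys
        exact key y hyx (fun _ _ => hyys)
      · intro hysx
        have h1 := H1 ys
        have h2 := hdegle ys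
        have h3 := hle x ys
        have h4 := H2 x ys hysx.symm
        omega

end Pool.Agent.Lib.MP_632be6_co
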