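import Pool.Agent.Lib.MP_632be6_co.Comp

/-!
# The wreath product of a class 1 graph with any graph is of class 1
-/

set_option autoImplicit false

namespace Pool.Agent.Lib.MP_632be6_co

open Finset Classical

/-- Gluing the components together. -/
theorem whole {X W : Type*} [Fintype X] [Fintype W] (G : SimpleGraph X) (D : ℕ) (hD : 1 ≤ D)
    (g : X → X → ℕ) (g_symm : ∀ x y, g x y = g y x) (g_lt : ∀ x y, G.Adj x y → g x y < D)
    (g_inj : ∀ x y y', G.Adj x y → G.Adj x y' → g x y = g x y' → y = y')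
    (A : SimpleGraph W) (s : W → W → Prop) (hs : Equivalence s)
    (hP : ∀ u v v', s v v' → A.Adj u v → ∃ u', s u u' ∧ A.Adj u' v')
    (hr : ∀ u v, s u v → rdeg A s u = rdeg A s v)
    (Δ : ℕ) (hΔ : ∀ v, (univ.filter (fun y => A.Adj v y)).card + D * (cls s v).card ≤ Δ) :
    ∃ c : X × W → X × W → ℕ,
      (∀ p r, PAdj G A s p r → c p r < Δ) ∧
      (∀ p r, PAdj G A s p r → c p r = c r p) ∧
      (∀ p r r', PAdj G A s p r → PAdj G A s p r' → c p r = c p r' → r = r') := by
  have hcomp := fun w0 => component G D hD g g_symm g_lt g_inj A s hs hP hr Δ hΔ w0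
  choose c hc1 hc2 hc3 using hcomp
  set E : W → W → Prop := fun u v => Relation.ReflTransGen (fun a b => A.Adj a b ∨ s a b) u v with hE
  have hstd : Std.Symm (fun a b => A.Adj a b ∨ s a b) := ⟨by
    intro a b h
    rcases h with h | h
    · exact Or.inl h.symm
    · exact Or.inr (hs.symm h)⟩
  have hEq : Equivalence E := ⟨fun _ => Relation.ReflTransGen.refl,
    fun h => Relation.ReflTransGen.stdSymm.symm _ _ h, fun h h' => h.trans h'⟩
  let S : Setoid W := ⟨E, hEq⟩
  set rep : W → W := fun w => (Quotient.mk S w).out with hrep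
  have hrep1 : ∀ w, E (rep w) w := fun w => Quotient.exact (Quotient.out_eq (Quotient.mk S w))
  have hrep2 : ∀ u v, E u v → rep u = rep v := by
    intro u v h
    simp only [hrep]
    have : Quotient.mk S u = Quotient.mk S v := Quotient.sound h
    rw [this]
  have hstep : ∀ p r, PAdj G A s p r → E p.2 r.2 := by
    intro p r h
    rcases h with ⟨_, h⟩ | ⟨_, h⟩
    · exact Relation.ReflTransGen.single (Or.inl h)
    · exact Relation.ReflTransGen.single (Or.inr h)
  refine ⟨fun p r => c (rep p.2) p r, ?_, ?_, ?_⟩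
  · intro p r h
    exact hc1 (rep p.2) p r (hrep1 p.2) h
  · intro p r h
    show c (rep p.2) p r = c (rep r.2) r p
    rw [hrep2 _ _ (hstep p r h)]
    exact hc2 (rep r.2) p r h
  · intro p r r' h h' he
    exact hc3 (rep p.2) p r r' (hrep1 p.2) h h' he

/-- Orbit relation. -/
def orb {W : Type*} (A : SimpleGraph W) (u v : W) : Prop := ∃ φ : A ≃g A, φ u = v

lemma orb_equiv {W : Type*} (A : SimpleGraph W) : Equivalence (orb A) := by
  refine ⟨fun u => ⟨SimpleGraph.Iso.refl, rfl⟩, ?_, ?_⟩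
  · rintro u v ⟨φ, h⟩
    exact ⟨φ.symm, by rw [← h]; simp⟩
  · rintro u v w ⟨φ, h⟩ ⟨ψ, h'⟩
    exact ⟨φ.trans ψ, by rw [← h', ← h]; rfl⟩

lemma orb_adj {W : Type*} (A : SimpleGraph W) (u v v' : W) (h : orb A v v') (hadj : A.Adj u v) :
    ∃ u', orb A u u' ∧ A.Adj u' v' := by
  obtain ⟨φ, rfl⟩ := h
  exact ⟨φ u, ⟨φ, rfl⟩, φ.map_adj_iff.mpr hadj⟩

lemma orb_rdeg {W : Type*} [Fintype W] (A : SimpleGraph W) (u v : W) (h : orb A u v) :
    rdeg A (orb A) u = rdeg A (orb A) v := by
  have h0 := h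
  obtain ⟨φ, rfl⟩ := h
  unfold rdeg
  apply Finset.card_bij (fun w _ => φ w)
  · intro w hw
    obtain ⟨h1, h2⟩ := Finset.mem_filter.mp hw
    rw [Finset.mem_filter, mem_cls]
    refine ⟨?_, φ.map_adj_iff.mpr h2⟩
    exact (orb_equiv A).trans ((orb_equiv A).symm h0)
      ((orb_equiv A).trans (mem_cls.mp h1) ⟨φ, rfl⟩)
  · intro w _ w' _ h
    exact φ.injective h
  · intro w hw
    obtain ⟨h1, h2⟩ := Finset.mem_filter.mp hw
    refine ⟨φ.symm w, ?_, by simp⟩
    rw [Finset.mem_filter, mem_cls]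
    constructor
    · exact (orb_equiv A).trans h0 ((orb_equiv A).trans (mem_cls.mp h1) ⟨φ.symm, rfl⟩)
    · rw [← φ.map_adj_iff]
      simpa using h2

/-- A proper edge-colouring needs at least maximum degree many colours. -/
lemma lower {V : Type*} [Fintype V] (H : SimpleGraph V) (k : ℕ)
    (h : ∃ c : Sym2 V → Fin k, ∀ e ∈ H.edgeSet, ∀ f ∈ H.edgeSet,
      e ≠ f → (∃ v, v ∈ e ∧ v ∈ f) → c e ≠ c f) : H.maxDegree ≤ k := by
  obtain ⟨c, hc⟩ := h
  by_cases hne : Nonempty V
  · obtain ⟨v, hv⟩ := H.exists_maximal_degree_vertex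
    rw [hv, ← SimpleGraph.card_neighborFinset_eq_degree]
    have : (H.neighborFinset v).card ≤ (univ : Finset (Fin k)).card := by
      apply Finset.card_le_card_of_injOn (fun w => c s(v, w)) (fun _ _ => Finset.mem_coe.mpr (Finset.mem_univ _))
      intro w hw w' hw' he
      by_contra hne
      rw [Finset.mem_coe, SimpleGraph.mem_neighborFinset] at hw hw'
      refine hc s(v, w) hw s(v, w') hw' ?_ ⟨v, by simp, by simp⟩ he
      intro h
      apply hne
      exact Sym2.congr_right.mp h
    simpa using this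
  · rw [not_nonempty_iff] at hne
    simp

/-- The Anderson-Lipman statement, with explicit colourings. -/
theorem anderson_lipman {V W : Type} [Fintype V] [Fintype W] (G : SimpleGraph V)
    (G' : SimpleGraph W) (H : SimpleGraph (V × W))
    (hH : H = SimpleGraph.fromRel (fun p q : V × W =>
            (p.1 = q.1 ∧ G'.Adj p.2 q.2) ∨
            (G.Adj p.1 q.1 ∧ ∃ φ : G' ≃g G', φ p.2 = q.2)))
    (hG : G.edgeSet.Nonempty)
    (hcol : ∃ c : Sym2 V → Fin G.maxDegree, ∀ e ∈ G.edgeSet, ∀ f ∈ G.edgeSet,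
      e ≠ f → (∃ v, v ∈ e ∧ v ∈ f) → c e ≠ c f) :
    ∃ c : Sym2 (V × W) → Fin H.maxDegree, ∀ e ∈ H.edgeSet, ∀ f ∈ H.edgeSet,
      e ≠ f → (∃ v, v ∈ e ∧ v ∈ f) → c e ≠ c f := by
  obtain ⟨c, hc⟩ := hcol
  have hadjH : ∀ p r, H.Adj p r ↔ PAdj G G' (orb G') p r := by
    intro p r
    rw [hH, SimpleGraph.fromRel_adj]
    unfold PAdj
    constructor
    · rintro ⟨_, h | h⟩
      · exact h
      · rcases h with ⟨h1, h2⟩ | ⟨h1, h2⟩
        · exact Or.inl ⟨h1.symm, h2.symm⟩
        · exact Or.inr ⟨h1.symm, (orb_equiv G').symm h2⟩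
    · intro h
      refine ⟨?_, Or.inl h⟩
      rintro rfl
      rcases h with ⟨_, h⟩ | ⟨h, _⟩
      · exact G'.irrefl h
      · exact G.irrefl h
  -- G has a vertex of maximal degree, at least one
  obtain ⟨e0, he0⟩ := hG
  have hVne : Nonempty V := by
    induction e0 using Sym2.ind with
    | _ x y => exact ⟨x⟩
  obtain ⟨x0, hx0⟩ := G.exists_maximal_degree_vertex
  have hD : 1 ≤ G.maxDegree := by
    induction e0 using Sym2.ind with
    | _ x y =>
      have h1 : G.Adj x y := he0
      have h2 : 0 < G.degree x := by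
        rw [← SimpleGraph.card_neighborFinset_eq_degree, Finset.card_pos]
        exact ⟨y, by simpa using h1⟩
      have h3 := G.degree_le_maxDegree x
      omega
  -- degrees in H
  have hΔ : ∀ v : W, (univ.filter (fun y => G'.Adj v y)).card +
      G.maxDegree * (cls (orb G') v).card ≤ H.maxDegree := by
    intro v
    refine le_trans ?_ (H.degree_le_maxDegree (x0, v))
    rw [← SimpleGraph.card_neighborFinset_eq_degree, hx0,
      ← SimpleGraph.card_neighborFinset_eq_degree, ← Finset.card_product,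
      ← Finset.card_map (⟨fun y : W => (x0, y), fun _ _ h => (Prod.mk.inj h).2⟩ : W ↪ V × W),
      ← Finset.card_union_of_disjoint]
    · apply Finset.card_le_card
      intro p hp
      rw [SimpleGraph.mem_neighborFinset, hadjH]
      rw [Finset.mem_union] at hp
      rcases hp with hp | hp
      · obtain ⟨y, hy, rfl⟩ := Finset.mem_map.mp hp
        exact Or.inl ⟨rfl, (Finset.mem_filter.mp hy).2⟩
      · obtain ⟨h1, h2⟩ := Finset.mem_product.mp hp
        exact Or.inr ⟨by simpa using h1, mem_cls.mp h2⟩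
    · rw [Finset.disjoint_left]
      intro p hp hp'
      obtain ⟨y, hy, rfl⟩ := Finset.mem_map.mp hp
      obtain ⟨h1, _⟩ := Finset.mem_product.mp hp'
      simp at h1
  obtain ⟨cc, h1, h2, h3⟩ := whole G G.maxDegree hD (fun x y => (c s(x, y)).val)
    (fun x y => by rw [Sym2.eq_swap]) (fun x y _ => (c s(x, y)).isLt)
    (by
      intro x y y' hy hy' he
      by_contra hne
      refine hc s(x, y) hy s(x, y') hy' ?_ ⟨x, by simp, by simp⟩ (Fin.ext he)
      intro h
      apply hne
      exact Sym2.congr_right.mp h)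
    G' (orb G') (orb_equiv G') (orb_adj G') (orb_rdeg G') H.maxDegree hΔ
  by_cases hW : Nonempty W
  · obtain ⟨w⟩ := hW
    have hpos : 0 < H.maxDegree := by
      have h4 := hΔ w
      have h5 : 0 < (cls (orb G') w).card :=
        Finset.card_pos.mpr ⟨w, mem_cls.mpr ((orb_equiv G').refl w)⟩
      have h6 : 0 < G.maxDegree * (cls (orb G') w).card := Nat.mul_pos hD h5
      omega
    set c2 : V × W → V × W → Fin H.maxDegree := fun p r =>
      if h : H.Adj p r then ⟨cc p r, h1 p r ((hadjH p r).mp h)⟩ else ⟨0, hpos⟩ with hc2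
    have c2_symm : ∀ p r, c2 p r = c2 r p := by
      intro p r
      simp only [hc2]
      by_cases h : H.Adj p r
      · rw [dif_pos h, dif_pos h.symm]
        exact Fin.ext (h2 p r ((hadjH p r).mp h))
      · rw [dif_neg h, dif_neg (fun h' => h h'.symm)]
    refine ⟨Sym2.lift ⟨c2, c2_symm⟩, ?_⟩
    rintro e he f hf hef ⟨v, hve, hvf⟩ heq
    obtain ⟨y, rfl⟩ := hve
    obtain ⟨z, rfl⟩ := hvf
    rw [Sym2.lift_mk, Sym2.lift_mk] at heq
    rw [SimpleGraph.mem_edgeSet] at he hf
    simp only [hc2] at heq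
    rw [dif_pos he, dif_pos hf] at heq
    have h4 := h3 v y z ((hadjH _ _).mp he) ((hadjH _ _).mp hf) (congrArg Fin.val heq)
    exact hef (by rw [h4])
  · rw [not_nonempty_iff] at hW
    have : IsEmpty (Sym2 (V × W)) := by
      constructor
      intro e
      induction e using Sym2.ind with
      | _ x y => exact hW.false x.2
    exact ⟨fun e => (this.false e).elim, fun e => (this.false e).elim⟩

end Pool.Agent.Lib.MP_632be6_co
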